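import Mathlib

/-!
# Averaging over orientations
-/

set_option linter.unusedSectionVars false
set_option linter.unusedVariables false

namespace Pool.Agent.Helper70.Rep

open Finset

section

variable {m : ℕ} (p : Fin m → Bool → Prop) [∀ k b, Decidable (p k b)]

/-- chosen directions -/
def outp (σ : Fin m → Bool) : Finset (Fin m) := univ.filter fun k => p k (σ k)

/-- number of present directions of an axis -/
def nn (k : Fin m) : ℕ := ((univ : Finset Bool).filter fun b => p k b).card

/-- total degree -/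
def dg : ℕ := ∑ k, nn p k

lemma nn_le (k : Fin m) : nn p k ≤ 2 := by
  unfold nn
  refine (Finset.card_filter_le _ _).trans ?_
  simp

lemma card_not (k : Fin m) : ((univ : Finset Bool).filter fun b => ¬ p k b).card = 2 - nn p k := by
  have := Finset.card_filter_add_card_filter_not (s := (univ : Finset Bool)) (fun b => p k b)
  simp only [Finset.card_univ, Fintype.card_bool] at this
  unfold nn
  omega

lemma card_zero : ((univ : Finset (Fin m → Bool)).filter fun σ => (outp p σ).card = 0).card =
    ∏ k, (2 - nn p k) := by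
  have h : ((univ : Finset (Fin m → Bool)).filter fun σ => (outp p σ).card = 0) =
      Fintype.piFinset fun k => (univ : Finset Bool).filter fun b => ¬ p k b := by
    ext σ
    rw [Finset.mem_filter, Fintype.mem_piFinset, Finset.card_eq_zero]
    unfold outp
    rw [Finset.filter_eq_empty_iff]
    simp
  rw [h, Fintype.card_piFinset]
  exact Finset.prod_congr rfl fun k _ => card_not p k

lemma card_one : ((univ : Finset (Fin m → Bool)).filter fun σ => (outp p σ).card = 1).card =
    ∑ k, ∏ j, (if j = k then nn p k else 2 - nn p j) := by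
  classical
  have h : ((univ : Finset (Fin m → Bool)).filter fun σ => (outp p σ).card = 1) =
      univ.biUnion fun k => ((univ : Finset (Fin m → Bool)).filter fun σ => outp p σ = {k}) := by
    ext σ
    simp only [Finset.mem_filter, Finset.mem_univ, true_and, Finset.mem_biUnion,
      Finset.card_eq_one]
  rw [h, Finset.card_biUnion]
  · apply Finset.sum_congr rfl
    intro k _
    have h2 : ((univ : Finset (Fin m → Bool)).filter fun σ => outp p σ = {k}) =
        Fintype.piFinset fun j => if j = k then (univ : Finset Bool).filter fun b => p k b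
          else (univ : Finset Bool).filter fun b => ¬ p j b := by
      ext σ
      rw [Finset.mem_filter, Fintype.mem_piFinset]
      constructor
      · rintro ⟨_, h3⟩ j
        split_ifs with hj
        · subst hj
          have : j ∈ outp p σ := by rw [h3]; exact Finset.mem_singleton_self j
          unfold outp at this
          rw [Finset.mem_filter] at this ⊢
          exact ⟨Finset.mem_univ _, this.2⟩
        · rw [Finset.mem_filter]
          refine ⟨Finset.mem_univ _, fun h4 => hj ?_⟩
          have : j ∈ outp p σ := by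
            unfold outp; rw [Finset.mem_filter]; exact ⟨Finset.mem_univ _, h4⟩
          rw [h3, Finset.mem_singleton] at this
          exact this
      · intro h3
        refine ⟨Finset.mem_univ _, ?_⟩
        ext j
        unfold outp
        rw [Finset.mem_filter, Finset.mem_singleton]
        have h4 := h3 j
        split_ifs at h4 with hj
        · rw [Finset.mem_filter] at h4
          subst hj
          simp [h4.2]
        · rw [Finset.mem_filter] at h4
          simp [h4.2, hj]
    rw [h2, Fintype.card_piFinset]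
    apply Finset.prod_congr rfl
    intro j _
    split_ifs with hj
    · rfl
    · exact card_not p j
  · intro k _ k' _ hk
    rw [Function.onFun, Finset.disjoint_left]
    intro σ h1 h2
    rw [Finset.mem_filter] at h1 h2
    exact hk (Finset.singleton_injective (h1.2.symm.trans h2.2))

end

lemma prod_two {m : ℕ} (n : Fin m → ℕ) (s : Finset (Fin m)) (h : ∀ k ∈ s, n k ≤ 1) :
    ∏ k ∈ s, (2 - n k) = 2 ^ (s.filter fun k => n k = 0).card := by
  have h1 : ∀ k ∈ s, 2 - n k = if n k = 0 then 2 else 1 := by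
    intro k hk
    have := h k hk
    split_ifs <;> omega
  rw [Finset.prod_congr rfl h1, Finset.prod_ite, Finset.prod_const, Finset.prod_const_one, mul_one]

/-- structure of the two counts -/
theorem counts {m : ℕ} (n : Fin m → ℕ) (hn : ∀ k, n k ≤ 2) :
    (∃ z s : ℕ, z + s = m ∧ ∑ k, n k = s ∧ ∏ k, (2 - n k) = 2 ^ z ∧
      ∑ k, ∏ j, (if j = k then n k else 2 - n j) = s * 2 ^ z) ∨
    (∃ z s : ℕ, z + s + 1 = m ∧ ∑ k, n k = s + 2 ∧ ∏ k, (2 - n k) = 0 ∧
      ∑ k, ∏ j, (if j = k then n k else 2 - n j) = 2 * 2 ^ z) ∨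
    (∏ k, (2 - n k) = 0 ∧ ∑ k, ∏ j, (if j = k then n k else 2 - n j) = 0) := by
  classical
  by_cases hq : ∃ k, n k = 2
  · obtain ⟨k0, hk0⟩ := hq
    have hA0 : ∏ k, (2 - n k) = 0 := Finset.prod_eq_zero (Finset.mem_univ k0) (by omega)
    have hne : ∀ k, k ≠ k0 → ∏ j, (if j = k then n k else 2 - n j) = 0 := by
      intro k hk
      apply Finset.prod_eq_zero (Finset.mem_univ k0)
      rw [if_neg (Ne.symm hk)]; omega
    have hsum : ∑ k, ∏ j, (if j = k then n k else 2 - n j) =
        ∏ j, (if j = k0 then n k0 else 2 - n j) := by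
      apply Finset.sum_eq_single
      · intro k _ hk; exact hne k hk
      · intro h; exact absurd (Finset.mem_univ _) h
    by_cases hq2 : ∃ k, k ≠ k0 ∧ n k = 2
    · obtain ⟨k1, hk1, hk1'⟩ := hq2
      right; right
      refine ⟨hA0, ?_⟩
      rw [hsum]
      apply Finset.prod_eq_zero (Finset.mem_univ k1)
      rw [if_neg hk1]; omega
    · push Not at hq2
      right; left
      have hle : ∀ k ∈ univ.erase k0, n k ≤ 1 := by
        intro k hk
        have h1 := hq2 k (Finset.ne_of_mem_erase hk)
        have h2 := hn k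
        omega
      have hsplit : ((univ.erase k0).filter fun k => n k = 0).card +
          ((univ.erase k0).filter fun k => ¬ n k = 0).card + 1 = m := by
        have h1 := Finset.card_filter_add_card_filter_not (s := univ.erase k0)
          (fun k => n k = 0)
        rw [Finset.card_erase_of_mem (Finset.mem_univ _), Finset.card_univ, Fintype.card_fin] at h1
        have : 0 < m := k0.pos
        omega
      refine ⟨((univ.erase k0).filter fun k => n k = 0).card,
        ((univ.erase k0).filter fun k => ¬ n k = 0).card, hsplit, ?_, hA0, ?_⟩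
      · rw [← Finset.add_sum_erase univ n (Finset.mem_univ k0), hk0, add_comm]
        congr 1
        rw [Finset.card_filter]
        apply Finset.sum_congr rfl
        intro k hk
        have := hle k hk
        split_ifs <;> omega
      · rw [hsum, ← Finset.mul_prod_erase univ _ (Finset.mem_univ k0), if_pos rfl, hk0]
        congr 1
        rw [← prod_two n _ hle]
        apply Finset.prod_congr rfl
        intro k hk
        rw [if_neg (Finset.ne_of_mem_erase hk)]
  · push Not at hq
    left
    have hle : ∀ k ∈ (univ : Finset (Fin m)), n k ≤ 1 := by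
      intro k _
      have h1 := hq k
      have h2 := hn k
      omega
    have hsplit : ((univ : Finset (Fin m)).filter fun k => n k = 0).card +
        ((univ : Finset (Fin m)).filter fun k => ¬ n k = 0).card = m := by
      have h1 := Finset.card_filter_add_card_filter_not (s := (univ : Finset (Fin m)))
        (fun k => n k = 0)
      rw [Finset.card_univ, Fintype.card_fin] at h1
      exact h1
    refine ⟨((univ : Finset (Fin m)).filter fun k => n k = 0).card,
      ((univ : Finset (Fin m)).filter fun k => ¬ n k = 0).card, hsplit, ?_,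
      prod_two n univ hle, ?_⟩
    · rw [Finset.card_filter]
      apply Finset.sum_congr rfl
      intro k hk
      have := hle k hk
      split_ifs <;> omega
    · have h1 : ∀ k ∈ (univ : Finset (Fin m)), ∏ j, (if j = k then n k else 2 - n j) =
          if ¬ n k = 0 then 2 ^ ((univ : Finset (Fin m)).filter fun k => n k = 0).card else 0 := by
        intro k hk
        by_cases h0 : n k = 0
        · rw [if_neg (by simpa using h0)]
          apply Finset.prod_eq_zero (Finset.mem_univ k)
          rw [if_pos rfl, h0]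
        · rw [if_pos h0, ← prod_two n univ hle]
          apply Finset.prod_congr rfl
          intro j _
          split_ifs with hj
          · subst hj
            have := hle j hk
            omega
          · rfl
      rw [Finset.sum_congr rfl h1, ← Finset.sum_filter, Finset.sum_const, smul_eq_mul]

lemma two_pow_ge_sq (s : ℕ) (hs : 4 ≤ s) : s ^ 2 ≤ 2 ^ s := by
  induction s, hs using Nat.le_induction with
  | base => norm_num
  | succ n hn ih =>
    rw [pow_succ 2 n]
    nlinarith

lemma two_pow_ge_a (s : ℕ) (hs : 4 ≤ s) : 2 * (1 + s) ≤ 2 ^ s := by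
  have := two_pow_ge_sq s hs
  nlinarith

lemma two_pow_ge_b (s : ℕ) (hs : 2 ≤ s) : 2 * s ≤ 2 ^ s := by
  induction s, hs using Nat.le_induction with
  | base => norm_num
  | succ n hn ih => rw [pow_succ 2 n]; omega

lemma two_pow_ge_c (s : ℕ) (hs : 2 ≤ s) : s + 2 ≤ 2 ^ s := by
  induction s, hs using Nat.le_induction with
  | base => norm_num
  | succ n hn ih => rw [pow_succ 2 n]; omega

lemma two_pow_ge_d (s : ℕ) (hs : 2 ≤ s) : s * (s + 2) ≤ 2 * 2 ^ s := by
  rcases Nat.lt_or_ge s 4 with h | h
  · interval_cases s <;> norm_num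
  · have := two_pow_ge_sq s h
    nlinarith

section final

variable {m : ℕ} (p : Fin m → Bool → Prop) [∀ k b, Decidable (p k b)]

/-- weights as a function of the orientation -/
def fw (m : ℕ) (α : ℤ) (c : ℕ) : ℤ := if c = 0 then 2 * (m : ℤ) else if c = 1 then α else 0

lemma sum_fw (α : ℤ) : ∑ σ, fw m α (outp p σ).card =
    2 * (m : ℤ) * ((∏ k, (2 - nn p k) : ℕ) : ℤ) +
    α * ((∑ k, ∏ j, (if j = k then nn p k else 2 - nn p j) : ℕ) : ℤ) := by
  rw [← card_zero p, ← card_one p]
  have h : ∀ σ : Fin m → Bool, fw m α (outp p σ).card =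
      (if (outp p σ).card = 0 then 2 * (m : ℤ) else 0) +
      (if (outp p σ).card = 1 then α else 0) := by
    intro σ
    unfold fw
    split_ifs <;> omega
  rw [Finset.sum_congr rfl fun σ _ => h σ, Finset.sum_add_distrib, ← Finset.sum_filter,
    ← Finset.sum_filter, Finset.sum_const, Finset.sum_const, nsmul_eq_mul, nsmul_eq_mul]
  ring

theorem avg_inner (hm : 4 ≤ m) (hd : 4 ≤ dg p) :
    ∑ σ, fw m (2 * ((m : ℤ) - 1)) (outp p σ).card ≤ 2 ^ m * max 0 ((m : ℤ) + 2 - dg p) := by
  rw [sum_fw]
  have hm' : (4 : ℤ) ≤ m := by exact_mod_cast hm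
  have hmax : (0 : ℤ) ≤ 2 ^ m * max 0 ((m : ℤ) + 2 - dg p) :=
    mul_nonneg (by positivity) (le_max_left _ _)
  have hmax2 : (2 : ℤ) ^ m * ((m : ℤ) + 2 - dg p) ≤ 2 ^ m * max 0 ((m : ℤ) + 2 - dg p) :=
    mul_le_mul_of_nonneg_left (le_max_right _ _) (by positivity)
  unfold dg at *
  rcases counts (nn p) (nn_le p) with ⟨z, s, h1, h2, h3, h4⟩ | ⟨z, s, h1, h2, h3, h4⟩ | ⟨h3, h4⟩
  · rw [h3, h4]
    refine le_trans ?_ hmax2
    rw [h2] at hd ⊢
    have e1 := two_pow_ge_sq s hd
    have e2 := two_pow_ge_a s hd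
    have e1' : (s : ℤ) ^ 2 ≤ 2 ^ s := by exact_mod_cast e1
    have e2' : 2 * (1 + (s : ℤ)) ≤ 2 ^ s := by exact_mod_cast e2
    have hmz : (m : ℤ) = z + s := by rw [← h1]; push_cast; ring
    have hpow : (2 : ℤ) ^ m = 2 ^ z * 2 ^ s := by rw [← h1, pow_add]
    rw [hpow, hmz]
    push_cast
    have hz : (0 : ℤ) ≤ z := by positivity
    have hs : (0 : ℤ) ≤ s := by positivity
    have hz2 : (0 : ℤ) < 2 ^ z := by positivity
    have key : 2 * ((z : ℤ) + s) + 2 * ((z : ℤ) + s - 1) * s ≤ 2 ^ s * (z + s + 2 - s) := by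
      nlinarith [mul_le_mul_of_nonneg_right e2' hz]
    calc 2 * ((z : ℤ) + s) * 2 ^ z + 2 * ((z : ℤ) + s - 1) * (s * 2 ^ z)
        = 2 ^ z * (2 * ((z : ℤ) + s) + 2 * ((z : ℤ) + s - 1) * s) := by ring
      _ ≤ 2 ^ z * (2 ^ s * (z + s + 2 - s)) := mul_le_mul_of_nonneg_left key hz2.le
      _ = _ := by ring
  · rw [h3, h4]
    refine le_trans ?_ hmax2
    rw [h2] at hd ⊢
    have hs2 : 2 ≤ s := by omega
    have e1 := two_pow_ge_b s hs2
    have e1' : 2 * (s : ℤ) ≤ 2 ^ s := by exact_mod_cast e1
    have hmz : (m : ℤ) = z + s + 1 := by rw [← h1]; push_cast; ring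
    have hpow : (2 : ℤ) ^ m = 2 ^ z * 2 ^ s * 2 := by rw [← h1, pow_add, pow_add]; ring
    rw [hpow, hmz]
    push_cast
    have hz : (0 : ℤ) ≤ z := by positivity
    have hs : (2 : ℤ) ≤ s := by exact_mod_cast hs2
    have hz2 : (0 : ℤ) < 2 ^ z := by positivity
    have key : 2 * ((z : ℤ) + s) ≤ 2 ^ s * (z + 1) := by
      nlinarith [mul_le_mul_of_nonneg_right e1' hz]
    calc 2 * ((z : ℤ) + s + 1) * 0 + 2 * ((z : ℤ) + s + 1 - 1) * (2 * 2 ^ z)
        = (2 ^ z * 2) * (2 * ((z : ℤ) + s)) := by ring
      _ ≤ (2 ^ z * 2) * (2 ^ s * (z + 1)) := mul_le_mul_of_nonneg_left key (by positivity)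
      _ = _ := by ring
  · rw [h3, h4]
    simpa using hmax

theorem avg_end (hm : 4 ≤ m) (hd : 1 ≤ dg p) :
    2 * ∑ σ, fw m (m : ℤ) (outp p σ).card ≤
      2 * (2 ^ m * max 0 ((m : ℤ) + 2 - dg p)) + 2 ^ m * ((m : ℤ) - 2) := by
  rw [sum_fw]
  have hm' : (4 : ℤ) ≤ m := by exact_mod_cast hm
  have hmax : (0 : ℤ) ≤ 2 ^ m * max 0 ((m : ℤ) + 2 - dg p) :=
    mul_nonneg (by positivity) (le_max_left _ _)
  have hmax2 : (2 : ℤ) ^ m * ((m : ℤ) + 2 - dg p) ≤ 2 ^ m * max 0 ((m : ℤ) + 2 - dg p) :=
    mul_le_mul_of_nonneg_left (le_max_right _ _) (by positivity)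
  have hextra : (0 : ℤ) ≤ 2 ^ m * ((m : ℤ) - 2) := mul_nonneg (by positivity) (by linarith)
  unfold dg at *
  rcases counts (nn p) (nn_le p) with ⟨z, s, h1, h2, h3, h4⟩ | ⟨z, s, h1, h2, h3, h4⟩ | ⟨h3, h4⟩
  · rw [h3, h4]
    rw [h2] at hd hmax2 ⊢
    have hmz : (m : ℤ) = z + s := by rw [← h1]; push_cast; ring
    have hpow : (2 : ℤ) ^ m = 2 ^ z * 2 ^ s := by rw [← h1, pow_add]
    have hz : (0 : ℤ) ≤ z := by positivity
    have hz2 : (0 : ℤ) < 2 ^ z := by positivity
    rcases Nat.lt_or_ge s 2 with hs | hs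
    · have hs1 : s = 1 := by omega
      subst hs1
      refine le_trans ?_ (add_le_add_left (mul_le_mul_of_nonneg_left hmax2 (by norm_num)) _)
      rw [hpow]
      push_cast
      apply le_of_eq
      ring
    · have e1 := two_pow_ge_c s hs
      have e2 := two_pow_ge_d s hs
      have e1' : (s : ℤ) + 2 ≤ 2 ^ s := by exact_mod_cast e1
      have e2' : (s : ℤ) * (s + 2) ≤ 2 * 2 ^ s := by exact_mod_cast e2
      have key : 2 * (m : ℤ) * ((2 ^ z : ℕ) : ℤ) + (m : ℤ) * ((s * 2 ^ z : ℕ) : ℤ) ≤
          2 ^ m * ((m : ℤ) + 2 - (s : ℕ)) := by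
        rw [hpow, hmz]
        push_cast
        have key' : 2 * ((z : ℤ) + s) + ((z : ℤ) + s) * s ≤ 2 ^ s * (z + s + 2 - s) := by
          nlinarith [mul_le_mul_of_nonneg_right e1' hz]
        calc 2 * ((z : ℤ) + s) * 2 ^ z + ((z : ℤ) + s) * (s * 2 ^ z)
            = 2 ^ z * (2 * ((z : ℤ) + s) + ((z : ℤ) + s) * s) := by ring
          _ ≤ 2 ^ z * (2 ^ s * (z + s + 2 - s)) := mul_le_mul_of_nonneg_left key' hz2.le
          _ = _ := by ring
      linarith
  · rw [h3, h4]
    rw [h2] at hd hmax2 ⊢
    have hmz : (m : ℤ) = z + s + 1 := by rw [← h1]; push_cast; ring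
    have hpow : (2 : ℤ) ^ m = 2 ^ z * 2 ^ s * 2 := by rw [← h1, pow_add, pow_add]; ring
    have hz : (0 : ℤ) ≤ z := by positivity
    have hs : (0 : ℤ) ≤ s := by positivity
    have hz2 : (0 : ℤ) < 2 ^ z := by positivity
    have e1 : s + 1 ≤ 2 ^ s := by
      have : s < 2 ^ s := Nat.lt_two_pow_self
      omega
    have e1' : (s : ℤ) + 1 ≤ 2 ^ s := by exact_mod_cast e1
    have key : 2 * (m : ℤ) * ((0 : ℕ) : ℤ) + (m : ℤ) * ((2 * 2 ^ z : ℕ) : ℤ) ≤
        2 ^ m * ((m : ℤ) + 2 - ((s + 2 : ℕ) : ℤ)) := by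
      rw [hpow, hmz]
      push_cast
      have key' : ((z : ℤ) + s + 1) ≤ 2 ^ s * (z + 1) := by
        nlinarith [mul_le_mul_of_nonneg_right e1' hz]
      calc 2 * ((z : ℤ) + s + 1) * 0 + ((z : ℤ) + s + 1) * (2 * 2 ^ z)
          = (2 ^ z * 2) * ((z : ℤ) + s + 1) := by ring
        _ ≤ (2 ^ z * 2) * (2 ^ s * (z + 1)) := mul_le_mul_of_nonneg_left key' (by positivity)
        _ = _ := by ring
    linarith
  · rw [h3, h4]
    have : 2 * (2 * (m : ℤ) * ((0 : ℕ) : ℤ) + (m : ℤ) * ((0 : ℕ) : ℤ)) = 0 := by simp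
    rw [this]
    linarith

end final

end Pool.Agent.Helper70.Rep
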