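import Mathlib

/-!
# Connectivity inside finite vertex sets
-/

set_option linter.unusedSectionVars false
set_option linter.unusedVariables false

namespace Pool.Agent.Helper70.Rep

open Finset Relation

variable {V : Type*} [DecidableEq V]

/-- connected inside `S` -/
def Conn (adj : V → V → Prop) (S : Finset V) : V → V → Prop :=
  ReflTransGen (fun x y => x ∈ S ∧ y ∈ S ∧ adj x y)

variable {adj : V → V → Prop}

lemma Conn.symm (hs : ∀ x y, adj x y → adj y x) {S : Finset V} {a b : V} (h : Conn adj S a b) :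
    Conn adj S b a := by
  induction h with
  | refl => exact ReflTransGen.refl
  | tail _ h ih => exact ReflTransGen.head ⟨h.2.1, h.1, hs _ _ h.2.2⟩ ih

lemma Conn.trans {S : Finset V} {a b c : V} (h : Conn adj S a b) (h' : Conn adj S b c) :
    Conn adj S a c := ReflTransGen.trans h h'

lemma Conn.mem {S : Finset V} {a b : V} (ha : a ∈ S) (h : Conn adj S a b) : b ∈ S := by
  induction h with
  | refl => exact ha
  | tail _ h _ => exact h.2.1

open Classical in
/-- component -/
noncomputable def comp (adj : V → V → Prop) (S : Finset V) (a : V) : Finset V :=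
  S.filter fun x => Conn adj S a x

lemma mem_comp {S : Finset V} {a x : V} : x ∈ comp adj S a ↔ x ∈ S ∧ Conn adj S a x := by
  classical
  unfold comp; exact Finset.mem_filter

lemma self_mem_comp {S : Finset V} {a : V} (ha : a ∈ S) : a ∈ comp adj S a :=
  mem_comp.2 ⟨ha, ReflTransGen.refl⟩

lemma comp_subset (S : Finset V) (a : V) : comp adj S a ⊆ S := fun x hx => (mem_comp.1 hx).1

lemma comp_closed {S : Finset V} {a x y : V} (hx : x ∈ comp adj S a) (hy : y ∈ S)
    (h : adj x y) : y ∈ comp adj S a := by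
  rw [mem_comp] at hx ⊢
  exact ⟨hy, hx.2.tail ⟨hx.1, hy, h⟩⟩

lemma conn_comp {S : Finset V} {a x : V} (ha : a ∈ S) (h : Conn adj S a x) :
    Conn adj (comp adj S a) a x := by
  induction h with
  | refl => exact ReflTransGen.refl
  | tail h' h ih =>
    exact ih.tail ⟨mem_comp.2 ⟨h.1, h'⟩, mem_comp.2 ⟨h.2.1, h'.tail h⟩, h.2.2⟩

lemma Conn.mono {S T : Finset V} (hST : S ⊆ T) {a x : V} (h : Conn adj S a x) :
    Conn adj T a x := by
  induction h with
  | refl => exact ReflTransGen.refl
  | tail _ h ih => exact ih.tail ⟨hST h.1, hST h.2.1, h.2.2⟩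

lemma conn_erase {S : Finset V} {x a y : V} (hx : x ∈ S) (ha : a ∈ S.erase x)
    (h : Conn adj S a y) :
    Conn adj (S.erase x) a y ∨ ∃ p, p ∈ comp adj (S.erase x) a ∧ adj p x := by
  induction h with
  | refl => exact Or.inl ReflTransGen.refl
  | @tail y z _ h ih =>
    rcases ih with ih | ih
    · have hy := Conn.mem ha ih
      by_cases hz : z = x
      · right
        refine ⟨y, mem_comp.2 ⟨hy, ih⟩, ?_⟩
        rw [← hz]; exact h.2.2
      · left
        exact ih.tail ⟨hy, Finset.mem_erase.2 ⟨hz, h.2.1⟩, h.2.2⟩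
    · exact Or.inr ih

/-- splitting at a cut vertex -/
lemma exists_split (hs : ∀ x y, adj x y → adj y x) {S : Finset V} {x a b : V} (hx : x ∈ S)
    (ha : a ∈ S) (hb : b ∈ S) (hax : a ≠ x) (hbx : b ≠ x) (h : Conn adj S a b)
    (hn : ¬ Conn adj (S.erase x) a b) :
    (∃ p, p ∈ comp adj (S.erase x) a ∧ adj p x) ∧ (∃ q, q ∈ comp adj (S.erase x) b ∧ adj q x) ∧
      Disjoint (comp adj (S.erase x) a) (comp adj (S.erase x) b) := by
  have ha' : a ∈ S.erase x := Finset.mem_erase.2 ⟨hax, ha⟩
  have hb' : b ∈ S.erase x := Finset.mem_erase.2 ⟨hbx, hb⟩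
  refine ⟨?_, ?_, ?_⟩
  · rcases conn_erase hx ha' h with h1 | h1
    · exact absurd h1 hn
    · exact h1
  · rcases conn_erase hx hb' (h.symm hs) with h1 | h1
    · exact absurd (h1.symm hs) hn
    · exact h1
  · rw [Finset.disjoint_left]
    intro y hy hy'
    rw [mem_comp] at hy hy'
    exact hn (hy.2.trans (hy'.2.symm hs))

end Pool.Agent.Helper70.Rep
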