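import Mathlib

/-!
# Slice representatives in finite oriented lattice graphs
-/

set_option linter.unusedSectionVars false
set_option linter.unusedVariables false

namespace Pool.Agent.Helper70.Rep

open Finset Relation

variable {V : Type*} [DecidableEq V] {m : ℕ}

/-- oriented lattice data -/
structure Dat (V : Type*) (m : ℕ) where
  c : V → Fin m → ℤ
  nx : Fin m → V → V
  e : Fin m → V → Prop
  hc : ∀ k x j, c (nx k x) j = c x j + if j = k then 1 else 0

namespace Dat

variable (D : Dat V m)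

/-- reachable inside `S` -/
def Reach (S : Finset V) : V → V → Prop :=
  ReflTransGen (fun x y => y ∈ S ∧ ∃ k, D.e k x ∧ y = D.nx k x)

open Classical in
/-- out directions -/
noncomputable def out (S : Finset V) (x : V) : Finset (Fin m) :=
  univ.filter fun k => D.e k x ∧ D.nx k x ∈ S

lemma mem_out {S : Finset V} {x : V} {k : Fin m} :
    k ∈ D.out S x ↔ D.e k x ∧ D.nx k x ∈ S := by
  unfold out; simp

/-- height -/
def ell (x : V) : ℤ := ∑ k, D.c x k

lemma ell_nx (k : Fin m) (x : V) : D.ell (D.nx k x) = D.ell x + 1 := by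
  unfold ell
  rw [Finset.sum_congr rfl (fun j _ => D.hc k x j), Finset.sum_add_distrib]
  simp

variable {D}

lemma Reach.mem {S : Finset V} {a x : V} (ha : a ∈ S) (h : D.Reach S a x) : x ∈ S := by
  induction h with
  | refl => exact ha
  | tail _ h _ => exact h.1

lemma Reach.coord {S : Finset V} {a x : V} (h : D.Reach S a x) (k : Fin m) :
    D.c a k ≤ D.c x k := by
  induction h with
  | refl => exact le_rfl
  | tail _ h ih =>
    obtain ⟨_, j, _, rfl⟩ := h
    rw [D.hc]
    split_ifs <;> linarith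

lemma Reach.trans {S : Finset V} {a b c : V} (h : D.Reach S a b) (h' : D.Reach S b c) :
    D.Reach S a c := ReflTransGen.trans h h'

lemma Reach.ell_le {S : Finset V} {a x : V} (h : D.Reach S a x) : D.ell a ≤ D.ell x :=
  Finset.sum_le_sum fun k _ => h.coord k

lemma Reach.tau {S : Finset V} {τ : V → ℤ} (hτ : ∀ k x, D.e k x → |τ (D.nx k x) - τ x| ≤ 1)
    {a x : V} (h : D.Reach S a x) : |τ x - τ a| ≤ D.ell x - D.ell a := by
  induction h with
  | refl => simp
  | @tail y z _ h ih =>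
    obtain ⟨_, j, hj, rfl⟩ := h
    rw [D.ell_nx]
    have h1 := hτ j _ hj
    rw [abs_le] at ih h1 ⊢
    constructor <;> linarith [ih.1, ih.2, h1.1, h1.2]

lemma exists_max {S : Finset V} {a : V} (ha : a ∈ S) (j : Fin m) :
    ∃ x ∈ S, D.Reach S a x ∧ D.c x j = D.c a j ∧ ∀ k ∈ D.out S x, k = j := by
  classical
  obtain ⟨x, hx, hmax⟩ := Finset.exists_max_image
    (S.filter fun x => D.Reach S a x ∧ D.c x j = D.c a j) D.ell
    ⟨a, Finset.mem_filter.2 ⟨ha, ReflTransGen.refl, rfl⟩⟩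
  rw [Finset.mem_filter] at hx
  refine ⟨x, hx.1, hx.2.1, hx.2.2, ?_⟩
  intro k hk
  by_contra hkj
  rw [D.mem_out] at hk
  have h1 := hmax (D.nx k x) (Finset.mem_filter.2 ⟨hk.2, hx.2.1.tail ⟨hk.2, k, hk.1, rfl⟩, by
    rw [D.hc, if_neg (fun h => hkj h.symm), hx.2.2]; ring⟩)
  rw [D.ell_nx] at h1
  linarith

lemma exists_sink {S : Finset V} {a : V} (ha : a ∈ S) :
    ∃ s ∈ S, D.Reach S a s ∧ D.out S s = ∅ := by
  classical
  obtain ⟨x, hx, hmax⟩ := Finset.exists_max_image
    (S.filter fun x => D.Reach S a x) D.ell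
    ⟨a, Finset.mem_filter.2 ⟨ha, ReflTransGen.refl⟩⟩
  rw [Finset.mem_filter] at hx
  refine ⟨x, hx.1, hx.2, ?_⟩
  rw [Finset.eq_empty_iff_forall_notMem]
  intro k hk
  rw [D.mem_out] at hk
  have h1 := hmax (D.nx k x) (Finset.mem_filter.2 ⟨hk.2, hx.2.tail ⟨hk.2, k, hk.1, rfl⟩⟩)
  rw [D.ell_nx] at h1
  linarith

/-- representatives of the slices between `a` and `v` -/
theorem reps {S : Finset V} {a v : V} (ha : a ∈ S) (h : D.Reach S a v) :
    ∃ r : Fin m → ℤ → V,
      (∀ k t, D.c a k ≤ t → t < D.c v k → r k t ∈ S ∧ D.Reach S a (r k t) ∧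
        D.c (r k t) k = t ∧ ∀ j ∈ D.out S (r k t), j = k) ∧
      (∀ k t k' t', D.c a k ≤ t → t < D.c v k → D.c a k' ≤ t' → t' < D.c v k' →
        r k t = r k' t' → k = k' ∧ t = t') := by
  classical
  revert ha
  induction h using ReflTransGen.head_induction_on with
  | refl =>
    intro ha
    refine ⟨fun _ _ => v, ?_, ?_⟩
    · intro k t h1 h2; omega
    · intro k t k' t' h1 h2; omega
  | @head a a' h h' ih =>
    intro ha
    obtain ⟨ha', j, hj, rfl⟩ := h
    obtain ⟨r', hr1, hr2⟩ := ih ha'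
    obtain ⟨x, hx, hax, hxj, hxout⟩ := exists_max (D := D) ha j
    have hrange : ∀ k t, D.c a k ≤ t → ¬ (k = j ∧ t = D.c a j) → D.c (D.nx j a) k ≤ t := by
      intro k t h1 h2
      rw [D.hc]
      split_ifs with hk
      · subst hk
        have : t ≠ D.c a k := fun h3 => h2 ⟨rfl, h3⟩
        omega
      · omega
    refine ⟨fun k t => if k = j ∧ t = D.c a j then x else r' k t, ?_, ?_⟩
    · intro k t h1 h2
      dsimp only
      split_ifs with hk
      · obtain ⟨rfl, rfl⟩ := hk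
        exact ⟨hx, hax, hxj, hxout⟩
      · obtain ⟨h3, h4, h5, h6⟩ := hr1 k t (hrange k t h1 hk) h2
        exact ⟨h3, ReflTransGen.head ⟨ha', j, hj, rfl⟩ h4, h5, h6⟩
    · have hne : ∀ k t, D.c (D.nx j a) k ≤ t → t < D.c v k → x ≠ r' k t := by
        intro k t h1 h2 h3
        obtain ⟨_, h4, _, _⟩ := hr1 k t h1 h2
        have h5 := Reach.coord h4 j
        rw [D.hc, if_pos rfl, ← h3, hxj] at h5
        omega
      intro k t k' t' h1 h2 h1' h2'
      dsimp only
      split_ifs with hk hk'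
      · intro _
        exact ⟨hk.1.trans hk'.1.symm, hk.2.trans hk'.2.symm⟩
      · intro h3
        exact absurd h3 (hne k' t' (hrange k' t' h1' hk') h2')
      · intro h3
        exact absurd h3.symm (hne k t (hrange k t h1 hk) h2)
      · intro h3
        exact hr2 k t k' t' (hrange k t h1 hk) h2 (hrange k' t' h1' ‹_›) h2' h3

/-- slice indices between `a` and `v` -/
noncomputable def slices (D : Dat V m) (a v : V) : Finset (Σ _ : Fin m, ℤ) :=
  univ.sigma fun k => Finset.Ico (D.c a k) (D.c v k)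

lemma mem_slices {a v : V} {κ : Σ _ : Fin m, ℤ} :
    κ ∈ D.slices a v ↔ D.c a κ.1 ≤ κ.2 ∧ κ.2 < D.c v κ.1 := by
  unfold slices
  simp

lemma card_slices {S : Finset V} {a v : V} (h : D.Reach S a v) :
    ((D.slices a v).card : ℤ) = D.ell v - D.ell a := by
  unfold slices ell
  rw [Finset.card_sigma, ← Finset.sum_sub_distrib, Nat.cast_sum]
  apply Finset.sum_congr rfl
  intro k _
  rw [Int.card_Ico]
  have := h.coord k
  omega

/-- representatives, second form -/
theorem reps' {S : Finset V} {a v : V} (ha : a ∈ S) (h : D.Reach S a v) :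
    ∃ r : (Σ _ : Fin m, ℤ) → V,
      (∀ κ ∈ D.slices a v, r κ ∈ S ∧ D.Reach S a (r κ) ∧
        D.c (r κ) κ.1 = κ.2 ∧ ∀ j ∈ D.out S (r κ), j = κ.1) ∧
      (Set.InjOn r (D.slices a v)) := by
  obtain ⟨r, h1, h2⟩ := reps ha h
  refine ⟨fun κ => r κ.1 κ.2, ?_, ?_⟩
  · intro κ hκ
    rw [mem_slices] at hκ
    exact h1 κ.1 κ.2 hκ.1 hκ.2
  · intro κ hκ κ' hκ' heq
    rw [Finset.mem_coe, mem_slices] at hκ hκ'
    obtain ⟨h3, h4⟩ := h2 κ.1 κ.2 κ'.1 κ'.2 hκ.1 hκ.2 hκ'.1 hκ'.2 heq
    exact Sigma.ext h3 (heq_of_eq h4)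

open Classical in
/-- the weights -/
noncomputable def wt (D : Dat V m) (S : Finset V) (a b x : V) : ℤ :=
  if (D.out S x).card = 0 then 2 * (m : ℤ) else
  if (D.out S x).card = 1 then (if x = a ∨ x = b then (m : ℤ) else 2 * ((m : ℤ) - 1)) else 0

lemma wt_nonneg (hm : 2 ≤ m) (S : Finset V) (a b x : V) : 0 ≤ D.wt S a b x := by
  unfold wt
  have : (2 : ℤ) ≤ m := by exact_mod_cast hm
  split_ifs <;> linarith

lemma wt_ge (hm : 2 ≤ m) {S : Finset V} (a b : V) {x : V} (h : (D.out S x).card ≤ 1) :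
    (m : ℤ) ≤ D.wt S a b x := by
  unfold wt
  have : (2 : ℤ) ≤ m := by exact_mod_cast hm
  split_ifs
  · linarith
  · linarith
  · linarith
  · omega

lemma wt_sink {S : Finset V} (a b : V) {x : V} (h : D.out S x = ∅) :
    D.wt S a b x = 2 * (m : ℤ) := by
  unfold wt
  rw [h]
  simp

lemma card_le_one_of {S : Finset V} {x : V} {k : Fin m} (h : ∀ j ∈ D.out S x, j = k) :
    (D.out S x).card ≤ 1 := by
  rw [Finset.card_le_one]
  intro i hi j hj
  rw [h i hi, h j hj]

/-- first case -/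
theorem le_of_reach (hm : 2 ≤ m) {S : Finset V} {u v : V} (hu : u ∈ S) (h : D.Reach S u v)
    (a b : V) : (m : ℤ) * (D.ell v - D.ell u + 2) ≤ ∑ x ∈ S, D.wt S a b x := by
  classical
  obtain ⟨r, hr1, hr2⟩ := reps' hu h
  obtain ⟨s, hs, hvs, hsout⟩ := exists_sink (D := D) (Reach.mem hu h)
  have hsub : insert s ((D.slices u v).image r) ⊆ S := by
    intro x hx
    rw [Finset.mem_insert, Finset.mem_image] at hx
    rcases hx with rfl | ⟨κ, hκ, rfl⟩
    · exact hs
    · exact (hr1 κ hκ).1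
  have hns : s ∉ (D.slices u v).image r := by
    rw [Finset.mem_image]
    rintro ⟨κ, hκ, h1⟩
    obtain ⟨_, _, h2, _⟩ := hr1 κ hκ
    rw [h1] at h2
    have := hvs.coord κ.1
    rw [mem_slices] at hκ
    omega
  have h1 : ∑ x ∈ insert s ((D.slices u v).image r), D.wt S a b x ≤ ∑ x ∈ S, D.wt S a b x :=
    Finset.sum_le_sum_of_subset_of_nonneg hsub fun x _ _ => wt_nonneg hm S a b x
  rw [Finset.sum_insert hns, wt_sink a b hsout] at h1
  have h2 : ((D.slices u v).image r).card • (m : ℤ) ≤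
      ∑ x ∈ (D.slices u v).image r, D.wt S a b x := by
    apply Finset.card_nsmul_le_sum
    intro x hx
    rw [Finset.mem_image] at hx
    obtain ⟨κ, hκ, rfl⟩ := hx
    exact wt_ge hm a b (card_le_one_of (hr1 κ hκ).2.2.2)
  rw [Finset.card_image_of_injOn hr2, nsmul_eq_mul, card_slices h] at h2
  linarith

end Dat

end Pool.Agent.Helper70.Rep
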