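import Mathlib
import Pool.Agent.Helper70.PercRep.Rep

/-!
# The crossing case
-/

set_option linter.unusedSectionVars false
set_option linter.unusedVariables false

namespace Pool.Agent.Helper70.Rep

open Finset Relation

variable {V : Type*} [DecidableEq V] {m : ℕ}

namespace Dat

variable {D : Dat V m}

open Classical in
/-- vertices whose only out direction is `κ.1`, in the slice `κ` -/
noncomputable def O (D : Dat V m) (S : Finset V) (κ : Σ _ : Fin m, ℤ) : Finset V :=
  S.filter fun x => D.out S x = {κ.1} ∧ D.c x κ.1 = κ.2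

lemma mem_O {S : Finset V} {κ : Σ _ : Fin m, ℤ} {x : V} :
    x ∈ D.O S κ ↔ x ∈ S ∧ D.out S x = {κ.1} ∧ D.c x κ.1 = κ.2 := by
  unfold O; simp

lemma exists_target {S : Finset V} {a b w : V} (ha : a ∈ S) (haw : D.Reach S a w)
    (hbw : D.Reach S b w) (k : Fin m) :
    ∃ v, D.Reach S a v ∧ D.Reach S b v ∧
      ∀ t x, D.O S ⟨k, t⟩ = {x} → D.Reach S a x → D.Reach S b x → D.c v k ≤ t := by
  classical
  rcases (S.filter fun x => D.Reach S a x ∧ D.Reach S b x ∧
    D.O S ⟨k, D.c x k⟩ = {x}).eq_empty_or_nonempty with h | h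
  · refine ⟨w, haw, hbw, ?_⟩
    intro t x hx hax hbx
    exfalso
    have h1 : x ∈ D.O S ⟨k, t⟩ := by rw [hx]; exact Finset.mem_singleton_self x
    rw [mem_O] at h1
    obtain ⟨h2, h3, h4⟩ := h1
    have : x ∈ (S.filter fun x => D.Reach S a x ∧ D.Reach S b x ∧
        D.O S ⟨k, D.c x k⟩ = {x}) := by
      rw [Finset.mem_filter]
      refine ⟨h2, hax, hbx, ?_⟩
      have h5 : D.c x k = t := h4
      rw [h5]; exact hx
    rw [h] at this
    exact absurd this (Finset.notMem_empty _)
  · obtain ⟨v, hv, hmin⟩ := Finset.exists_min_image _ (fun x => D.c x k) h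
    rw [Finset.mem_filter] at hv
    refine ⟨v, hv.2.1, hv.2.2.1, ?_⟩
    intro t x hx hax hbx
    have h1 : x ∈ D.O S ⟨k, t⟩ := by rw [hx]; exact Finset.mem_singleton_self x
    rw [mem_O] at h1
    obtain ⟨h2, h3, h4⟩ := h1
    have h5 : D.c x k = t := h4
    rw [← h5]
    apply hmin
    rw [Finset.mem_filter]
    refine ⟨h2, hax, hbx, ?_⟩
    rw [h5]; exact hx

theorem cross (hm : 2 ≤ m) {S : Finset V} {a b : V} (ha : a ∈ S) (hb : b ∈ S)
    (hna : ¬ D.Reach S b a) (hnb : ¬ D.Reach S a b) {w : V} (haw : D.Reach S a w)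
    (hbw : D.Reach S b w) {τ : V → ℤ} (hτ : ∀ k x, D.e k x → |τ (D.nx k x) - τ x| ≤ 1) :
    (m : ℤ) * (τ b - τ a + 2) ≤ ∑ x ∈ S, D.wt S a b x := by
  classical
  have hm' : (2 : ℤ) ≤ m := by exact_mod_cast hm
  choose v hav hbv hv using fun k => exists_target ha haw hbw k
  -- the starting points
  obtain ⟨st, hst1, hst0⟩ : ∃ st : Bool → V, st true = a ∧ st false = b :=
    ⟨fun s => if s then a else b, by simp, by simp⟩
  have hstS : ∀ s, st s ∈ S := by
    intro s; cases s
    · rw [hst0]; exact hb
    · rw [hst1]; exact ha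
  have hstR : ∀ i : Fin m × Bool, D.Reach S (st i.2) (v i.1) := by
    rintro ⟨k, s⟩
    cases s
    · show D.Reach S (st false) _
      rw [hst0]; exact hbv k
    · show D.Reach S (st true) _
      rw [hst1]; exact hav k
  choose P hP1 hP2 using fun i : Fin m × Bool => reps' (hstS i.2) (hstR i)
  set F : Fin m × Bool → Finset (Σ _ : Fin m, ℤ) := fun i => D.slices (st i.2) (v i.1) with hF
  set N := (S.filter fun x => D.out S x = ∅).card with hN
  -- sink representatives
  have hsink : ∀ i, ((F i).filter fun κ => D.out S (P i κ) = ∅).card + 1 ≤ N := by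
    intro i
    obtain ⟨s, hs, hvs, hsout⟩ := exists_sink (D := D) (Reach.mem (hstS i.2) (hstR i))
    have h1 : insert s (((F i).filter fun κ => D.out S (P i κ) = ∅).image (P i)) ⊆
        S.filter fun x => D.out S x = ∅ := by
      intro x hx
      rw [Finset.mem_insert, Finset.mem_image] at hx
      rw [Finset.mem_filter]
      rcases hx with rfl | ⟨κ, hκ, rfl⟩
      · exact ⟨hs, hsout⟩
      · rw [Finset.mem_filter] at hκ
        exact ⟨(hP1 i κ hκ.1).1, hκ.2⟩
    have hns : s ∉ ((F i).filter fun κ => D.out S (P i κ) = ∅).image (P i) := by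
      rw [Finset.mem_image]
      rintro ⟨κ, hκ, h1⟩
      rw [Finset.mem_filter] at hκ
      obtain ⟨_, _, h2, _⟩ := hP1 i κ hκ.1
      rw [h1] at h2
      have := hvs.coord κ.1
      have h3 := hκ.1
      rw [hF] at h3
      simp only at h3
      rw [mem_slices] at h3
      omega
    have h2 := Finset.card_le_card h1
    rw [Finset.card_insert_of_notMem hns, Finset.card_image_of_injOn] at h2
    · exact h2
    · intro κ hκ κ' hκ' heq
      rw [Finset.mem_coe, Finset.mem_filter] at hκ hκ'
      exact hP2 i hκ.1 hκ'.1 heq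
  -- non-sink representatives
  have hmemO : ∀ i κ, κ ∈ F i → D.out S (P i κ) ≠ ∅ → P i κ ∈ D.O S κ := by
    intro i κ hκ hne
    obtain ⟨h1, _, h3, h4⟩ := hP1 i κ hκ
    rw [mem_O]
    refine ⟨h1, ?_, h3⟩
    obtain ⟨j, hj⟩ := Finset.nonempty_iff_ne_empty.2 hne
    have hj' := h4 j hj
    subst hj'
    ext j'
    rw [Finset.mem_singleton]
    constructor
    · intro h; exact h4 j' h
    · intro h; rw [h]; exact hj
  have hwO : ∀ κ x, x ∈ D.O S κ → (m : ℤ) ≤ D.wt S a b x := by
    intro κ x hx
    rw [mem_O] at hx
    apply wt_ge hm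
    rw [hx.2.1, Finset.card_singleton]
  have hpt : ∀ κ : (Σ _ : Fin m, ℤ),
      (((univ : Finset (Fin m × Bool)).filter
        fun i => κ ∈ F i ∧ D.out S (P i κ) ≠ ∅).card : ℤ) ≤ ∑ x ∈ D.O S κ, D.wt S a b x := by
    intro κ
    rcases Nat.lt_or_ge 1 (D.O S κ).card with hc | hc
    · -- two representatives
      have h1 : (D.O S κ).card • (m : ℤ) ≤ ∑ x ∈ D.O S κ, D.wt S a b x :=
        Finset.card_nsmul_le_sum _ _ _ fun x hx => hwO κ x hx
      have h2 : (((univ : Finset (Fin m × Bool)).filter
          fun i => κ ∈ F i ∧ D.out S (P i κ) ≠ ∅).card : ℤ) ≤ 2 * m := by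
        have h3 := Finset.card_filter_le (univ : Finset (Fin m × Bool))
          (fun i => κ ∈ F i ∧ D.out S (P i κ) ≠ ∅)
        have h4 : (univ : Finset (Fin m × Bool)).card = m * 2 := by simp
        rw [h4] at h3
        have : (((univ : Finset (Fin m × Bool)).filter
          fun i => κ ∈ F i ∧ D.out S (P i κ) ≠ ∅).card : ℤ) ≤ ((m * 2 : ℕ) : ℤ) := by
          exact_mod_cast h3
        push_cast at this
        linarith
      rw [nsmul_eq_mul] at h1
      have h5 : (2 : ℤ) ≤ ((D.O S κ).card : ℤ) := by exact_mod_cast hc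
      nlinarith
    · rcases Nat.eq_zero_or_pos (D.O S κ).card with hc0 | hc0
      · -- empty slice
        rw [Finset.card_eq_zero] at hc0
        rw [hc0, Finset.sum_empty]
        have : ((univ : Finset (Fin m × Bool)).filter
            fun i => κ ∈ F i ∧ D.out S (P i κ) ≠ ∅) = ∅ := by
          rw [Finset.eq_empty_iff_forall_notMem]
          intro i hi
          rw [Finset.mem_filter] at hi
          have := hmemO i κ hi.2.1 hi.2.2
          rw [hc0] at this
          exact absurd this (Finset.notMem_empty _)
        rw [this]; simp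
      · obtain ⟨x, hx⟩ := Finset.card_eq_one.1 (le_antisymm hc hc0)
        have hxO : x ∈ D.O S κ := by rw [hx]; exact Finset.mem_singleton_self x
        have hall : ∀ i, κ ∈ F i → D.out S (P i κ) ≠ ∅ → D.Reach S (st i.2) x := by
          intro i h1 h2
          have h3 := hmemO i κ h1 h2
          rw [hx, Finset.mem_singleton] at h3
          rw [← h3]
          exact (hP1 i κ h1).2.1
        rw [hx, Finset.sum_singleton]
        have hfst : ∀ s : Bool, (((univ : Finset (Fin m × Bool)).filter
            fun i => i.2 = s).card : ℤ) = m := by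
          intro s
          have : ((univ : Finset (Fin m × Bool)).filter fun i => i.2 = s) =
              (univ : Finset (Fin m)).image fun k => (k, s) := by
            ext ⟨k, s'⟩
            simp [eq_comm]
          rw [this, Finset.card_image_of_injective]
          · simp
          · intro k k' h; exact (Prod.mk.inj h).1
        by_cases hxa : D.Reach S a x
        · by_cases hxb : D.Reach S b x
          · -- in the common part
            have hxne : ¬ (x = a ∨ x = b) := by
              rintro (h | h)
              · exact hna (h ▸ hxb)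
              · exact hnb (h ▸ hxa)
            have hwx : D.wt S a b x = 2 * ((m : ℤ) - 1) := by
              unfold wt
              have : (D.out S x).card = 1 := by
                rw [(mem_O.1 hxO).2.1, Finset.card_singleton]
              rw [this, if_neg (by norm_num), if_pos rfl, if_neg hxne]
            rw [hwx]
            have hlt : D.c (v κ.1) κ.1 ≤ κ.2 := by
              apply hv κ.1 κ.2 x _ hxa hxb
              exact hx
            have hsub : ((univ : Finset (Fin m × Bool)).filter
                fun i => κ ∈ F i ∧ D.out S (P i κ) ≠ ∅) ⊆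
                (univ.erase κ.1) ×ˢ (univ : Finset Bool) := by
              rintro ⟨k, s⟩ hi
              rw [Finset.mem_filter] at hi
              rw [Finset.mem_product, Finset.mem_erase]
              refine ⟨⟨?_, Finset.mem_univ _⟩, Finset.mem_univ _⟩
              rintro h
              have h' : k = κ.1 := h
              subst h'
              have h2 := hi.2.1
              rw [hF] at h2
              simp only at h2
              rw [mem_slices] at h2
              omega
            have h1 := Finset.card_le_card hsub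
            rw [Finset.card_product, Finset.card_erase_of_mem (Finset.mem_univ _)] at h1
            simp only [Finset.card_univ, Fintype.card_fin, Fintype.card_bool] at h1
            have h2 : (((univ : Finset (Fin m × Bool)).filter
                fun i => κ ∈ F i ∧ D.out S (P i κ) ≠ ∅).card : ℤ) ≤ (((m - 1) * 2 : ℕ) : ℤ) := by
              exact_mod_cast h1
            rw [Nat.cast_mul, Nat.cast_sub (by omega)] at h2
            push_cast at h2
            linarith
          · -- only from `a`
            refine le_trans ?_ (hwO κ x hxO)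
            rw [← hfst true]
            have hsub : ((univ : Finset (Fin m × Bool)).filter
                fun i => κ ∈ F i ∧ D.out S (P i κ) ≠ ∅) ⊆
                ((univ : Finset (Fin m × Bool)).filter fun i => i.2 = true) := by
              intro i hi
              rw [Finset.mem_filter] at hi ⊢
              refine ⟨Finset.mem_univ _, ?_⟩
              have h1 := hall i hi.2.1 hi.2.2
              by_contra h2
              rw [Bool.not_eq_true] at h2
              rw [h2, hst0] at h1
              exact hxb h1
            exact_mod_cast Finset.card_le_card hsub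
        · refine le_trans ?_ (hwO κ x hxO)
          rw [← hfst false]
          have hsub : ((univ : Finset (Fin m × Bool)).filter
              fun i => κ ∈ F i ∧ D.out S (P i κ) ≠ ∅) ⊆
              ((univ : Finset (Fin m × Bool)).filter fun i => i.2 = false) := by
            intro i hi
            rw [Finset.mem_filter] at hi ⊢
            refine ⟨Finset.mem_univ _, ?_⟩
            have h1 := hall i hi.2.1 hi.2.2
            by_contra h2
            rw [Bool.not_eq_false] at h2
            rw [h2, hst1] at h1
            exact hxa h1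
          exact_mod_cast Finset.card_le_card hsub
  -- sum over the slices
  set K : Finset (Σ _ : Fin m, ℤ) := univ.biUnion F with hK
  have hsum1 : ∑ i, (((F i).filter fun κ => D.out S (P i κ) ≠ ∅).card : ℤ) =
      ∑ κ ∈ K, (((univ : Finset (Fin m × Bool)).filter
        fun i => κ ∈ F i ∧ D.out S (P i κ) ≠ ∅).card : ℤ) := by
    have h1 : ∀ i, (((F i).filter fun κ => D.out S (P i κ) ≠ ∅).card : ℤ) =
        ∑ κ ∈ K, if κ ∈ F i ∧ D.out S (P i κ) ≠ ∅ then (1 : ℤ) else 0 := by
      intro i
      rw [← Finset.sum_filter, Finset.sum_const, nsmul_eq_mul, mul_one]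
      congr 2
      ext κ
      rw [Finset.mem_filter, Finset.mem_filter]
      constructor
      · rintro ⟨h2, h3⟩
        exact ⟨Finset.mem_biUnion.2 ⟨i, Finset.mem_univ _, h2⟩, h2, h3⟩
      · rintro ⟨_, h2, h3⟩
        exact ⟨h2, h3⟩
    rw [Finset.sum_congr rfl fun i _ => h1 i, Finset.sum_comm]
    apply Finset.sum_congr rfl
    intro κ _
    rw [← Finset.sum_filter, Finset.sum_const, nsmul_eq_mul, mul_one]
  have hsum2 : ∑ i, (((F i).filter fun κ => D.out S (P i κ) ≠ ∅).card : ℤ) ≤
      ∑ κ ∈ K, ∑ x ∈ D.O S κ, D.wt S a b x := by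
    rw [hsum1]
    exact Finset.sum_le_sum fun κ _ => hpt κ
  have hdisj : ∀ κ ∈ (K : Set (Σ _ : Fin m, ℤ)), ∀ κ' ∈ (K : Set (Σ _ : Fin m, ℤ)), κ ≠ κ' →
      Disjoint (D.O S κ) (D.O S κ') := by
    intro κ _ κ' _ hne
    rw [Finset.disjoint_left]
    intro x hx hx'
    rw [mem_O] at hx hx'
    apply hne
    have h1 : κ.1 = κ'.1 := by
      have := hx.2.1.symm.trans hx'.2.1
      exact Finset.singleton_injective this
    refine Sigma.ext h1 (heq_of_eq ?_)
    rw [← hx.2.2, ← hx'.2.2, h1]
  have hsum3 : ∑ κ ∈ K, ∑ x ∈ D.O S κ, D.wt S a b x = ∑ x ∈ K.biUnion (D.O S), D.wt S a b x :=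
    (Finset.sum_biUnion hdisj).symm
  have hsum4 : 2 * (m : ℤ) * N + ∑ x ∈ K.biUnion (D.O S), D.wt S a b x ≤
      ∑ x ∈ S, D.wt S a b x := by
    have h1 : ∑ x ∈ S.filter (fun x => D.out S x = ∅), D.wt S a b x = 2 * (m : ℤ) * N := by
      rw [Finset.sum_congr rfl (g := fun _ => 2 * (m : ℤ))]
      · rw [Finset.sum_const, nsmul_eq_mul, hN]; ring
      · intro x hx
        rw [Finset.mem_filter] at hx
        exact wt_sink a b hx.2
    rw [← h1, ← Finset.sum_union]
    · apply Finset.sum_le_sum_of_subset_of_nonneg
      · intro x hx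
        rw [Finset.mem_union, Finset.mem_filter, Finset.mem_biUnion] at hx
        rcases hx with hx | ⟨κ, _, hx⟩
        · exact hx.1
        · exact (mem_O.1 hx).1
      · intro x _ _
        exact wt_nonneg hm S a b x
    · rw [Finset.disjoint_left]
      intro x hx hx'
      rw [Finset.mem_filter] at hx
      rw [Finset.mem_biUnion] at hx'
      obtain ⟨κ, _, h2⟩ := hx'
      rw [mem_O, hx.2] at h2
      exact absurd h2.2.1.symm (Finset.singleton_ne_empty _)
  -- lengths
  have hFcard : ∀ i, ((F i).card : ℤ) = D.ell (v i.1) - D.ell (st i.2) := fun i =>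
    card_slices (hstR i)
  have hFle : ∀ i, ((F i).card : ℤ) ≤
      (N : ℤ) - 1 + (((F i).filter fun κ => D.out S (P i κ) ≠ ∅).card : ℤ) := by
    intro i
    have h1 := Finset.card_filter_add_card_filter_not (s := F i)
      (fun κ => D.out S (P i κ) = ∅)
    have h2 := hsink i
    have h3 : ((F i).filter fun κ => ¬ D.out S (P i κ) = ∅).card =
        ((F i).filter fun κ => D.out S (P i κ) ≠ ∅).card := rfl
    rw [h3] at h1
    have h1' : (((F i).filter fun κ => D.out S (P i κ) = ∅).card : ℤ) +
        (((F i).filter fun κ => D.out S (P i κ) ≠ ∅).card : ℤ) = ((F i).card : ℤ) := by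
      exact_mod_cast h1
    have h2' : (((F i).filter fun κ => D.out S (P i κ) = ∅).card : ℤ) + 1 ≤ (N : ℤ) := by
      exact_mod_cast h2
    linarith
  have htot : ∑ i : Fin m × Bool, ((F i).card : ℤ) ≤ 2 * (m : ℤ) * ((N : ℤ) - 1) +
      ∑ i, (((F i).filter fun κ => D.out S (P i κ) ≠ ∅).card : ℤ) := by
    refine (Finset.sum_le_sum fun i _ => hFle i).trans ?_
    rw [Finset.sum_add_distrib, Finset.sum_const]
    simp only [Finset.card_univ, Fintype.card_prod, Fintype.card_fin, Fintype.card_bool,
      nsmul_eq_mul]
    push_cast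
    apply le_of_eq
    ring
  have hlow : (m : ℤ) * (τ b - τ a) ≤ ∑ i : Fin m × Bool, ((F i).card : ℤ) := by
    rw [Finset.sum_congr rfl fun i _ => hFcard i, Fintype.sum_prod_type]
    have h1 : ∀ k : Fin m, τ b - τ a ≤ ∑ s : Bool, (D.ell (v k) - D.ell (st s)) := by
      intro k
      rw [Fintype.sum_bool, hst1, hst0]
      have h2 := Reach.tau hτ (hav k)
      have h3 := Reach.tau hτ (hbv k)
      rw [abs_le] at h2 h3
      linarith [h2.1, h2.2, h3.1, h3.2]
    have h2 := Finset.sum_le_sum fun (k : Fin m) (_ : k ∈ univ) => h1 k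
    rw [Finset.sum_const] at h2
    simp only [Finset.card_univ, Fintype.card_fin, nsmul_eq_mul] at h2
    exact h2
  rw [hsum3] at hsum2
  nlinarith

end Dat

end Pool.Agent.Helper70.Rep
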