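import Mathlib
import Pool.Agent.Helper70.PercRep.Cross
import Pool.Agent.Helper70.PercRep.Conn

/-!
# The inequality for one orientation
-/

set_option linter.unusedSectionVars false
set_option linter.unusedVariables false

namespace Pool.Agent.Helper70.Rep

open Finset Relation

variable {V : Type*} [DecidableEq V] {m : ℕ}

namespace Dat

variable {D : Dat V m}

/-- adjacency -/
def adj (D : Dat V m) (x y : V) : Prop :=
  ∃ k, (D.e k x ∧ y = D.nx k x) ∨ (D.e k y ∧ x = D.nx k y)

lemma adj_symm (x y : V) (h : D.adj x y) : D.adj y x := by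
  obtain ⟨k, h | h⟩ := h
  · exact ⟨k, Or.inr h⟩
  · exact ⟨k, Or.inl h⟩

lemma adj_tau {τ : V → ℤ} (hτ : ∀ k x, D.e k x → |τ (D.nx k x) - τ x| ≤ 1) {x y : V}
    (h : D.adj x y) : |τ y - τ x| ≤ 1 := by
  obtain ⟨k, ⟨h1, rfl⟩ | ⟨h1, rfl⟩⟩ := h
  · exact hτ k x h1
  · rw [abs_sub_comm]; exact hτ k y h1

/-- no sources outside `a, b` -/
theorem noSource (hm : 2 ≤ m) {S : Finset V} {a b : V} (ha : a ∈ S) (hb : b ∈ S)
    (hconn : Conn D.adj S a b)
    (hsrc : ∀ x ∈ S, x = a ∨ x = b ∨ ∃ y ∈ S, ∃ k, D.e k y ∧ x = D.nx k y)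
    {τ : V → ℤ} (hτ : ∀ k x, D.e k x → |τ (D.nx k x) - τ x| ≤ 1) :
    (m : ℤ) * (τ b - τ a + 2) ≤ ∑ x ∈ S, D.wt S a b x := by
  classical
  have hm0 : (0 : ℤ) ≤ m := by positivity
  -- everything is reachable
  have hreach : ∀ x ∈ S, D.Reach S a x ∨ D.Reach S b x := by
    by_contra hcon
    push Not at hcon
    obtain ⟨x0, hx0, hx0'⟩ := hcon
    obtain ⟨x, hx, hmin⟩ := Finset.exists_min_image
      (S.filter fun x => ¬ (D.Reach S a x ∨ D.Reach S b x)) D.ell
      ⟨x0, Finset.mem_filter.2 ⟨hx0, by rintro (h | h); exacts [hx0'.1 h, hx0'.2 h]⟩⟩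
    rw [Finset.mem_filter] at hx
    rcases hsrc x hx.1 with rfl | rfl | ⟨y, hy, k, hk, hxy⟩
    · exact hx.2 (Or.inl ReflTransGen.refl)
    · exact hx.2 (Or.inr ReflTransGen.refl)
    · have hy' : D.Reach S a y ∨ D.Reach S b y := by
        by_contra hcon
        have := hmin y (Finset.mem_filter.2 ⟨hy, hcon⟩)
        rw [hxy, D.ell_nx] at this
        linarith
      apply hx.2
      rcases hy' with h | h
      · left; exact h.tail ⟨hx.1, k, hk, hxy⟩
      · right; exact h.tail ⟨hx.1, k, hk, hxy⟩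
  -- common point
  have hC : ∃ w, D.Reach S a w ∧ D.Reach S b w := by
    by_contra hcon
    push Not at hcon
    have h1 : ∀ y, Conn D.adj S a y → D.Reach S a y := by
      intro y hy
      induction hy with
      | refl => exact ReflTransGen.refl
      | @tail y z _ h ih =>
        obtain ⟨hyS, hzS, k, ⟨hk, hz⟩ | ⟨hk, hz⟩⟩ := h
        · exact ih.tail ⟨hzS, k, hk, hz⟩
        · rcases hreach z hzS with h2 | h2
          · exact h2
          · exact absurd (h2.tail ⟨hyS, k, hk, hz⟩) (hcon y ih)
    exact hcon b (h1 b hconn) ReflTransGen.refl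
  obtain ⟨w, haw, hbw⟩ := hC
  by_cases hna : D.Reach S b a
  · have h1 := le_of_reach hm hb hna a b
    have h2 := Reach.tau hτ hna
    rw [abs_le] at h2
    have h3 : (m : ℤ) * (τ b - τ a + 2) ≤ (m : ℤ) * (D.ell a - D.ell b + 2) :=
      mul_le_mul_of_nonneg_left (by linarith [h2.1, h2.2]) hm0
    linarith
  · by_cases hnb : D.Reach S a b
    · have h1 := le_of_reach hm ha hnb a b
      have h2 := Reach.tau hτ hnb
      rw [abs_le] at h2
      have h3 : (m : ℤ) * (τ b - τ a + 2) ≤ (m : ℤ) * (D.ell b - D.ell a + 2) :=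
        mul_le_mul_of_nonneg_left (by linarith [h2.1, h2.2]) hm0
      linarith
    · exact cross hm ha hb hna hnb haw hbw hτ

lemma wt_congr {S T : Finset V} {a b x : V} (h : D.out S x = D.out T x) :
    D.wt S a b x = D.wt T a b x := by
  unfold wt; rw [h]

/-- changing the end points to ones in a smaller set -/
lemma wt_le (hm : 2 ≤ m) {S : Finset V} {a b a' b' x : V} (h : x = a ∨ x = b → x = a' ∨ x = b') :
    D.wt S a' b' x ≤ D.wt S a b x := by
  unfold wt
  have : (2 : ℤ) ≤ m := by exact_mod_cast hm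
  split_ifs with h1 h2 h3 h4 h5
  · exact le_rfl
  · exact le_rfl
  · linarith
  · exact absurd (h h5) h3
  · exact le_rfl
  · exact le_rfl

/-- the inequality for one orientation -/
theorem master (hm : 2 ≤ m) {τ : V → ℤ} (hτ : ∀ k x, D.e k x → |τ (D.nx k x) - τ x| ≤ 1)
    (N : ℕ) : ∀ S : Finset V, S.card ≤ N → ∀ a b, a ∈ S → b ∈ S → Conn D.adj S a b →
    (m : ℤ) * (τ b - τ a + 2) ≤ ∑ x ∈ S, D.wt S a b x := by
  classical
  have hm' : (2 : ℤ) ≤ m := by exact_mod_cast hm
  induction N with
  | zero =>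
    intro S hS a b ha
    rw [Nat.le_zero, Finset.card_eq_zero] at hS
    rw [hS] at ha
    exact absurd ha (Finset.notMem_empty _)
  | succ N ih =>
    intro S hS a b ha hb hconn
    by_cases hsrc : ∀ x ∈ S, x = a ∨ x = b ∨ ∃ y ∈ S, ∃ k, D.e k y ∧ x = D.nx k y
    · exact noSource hm ha hb hconn hsrc hτ
    push Not at hsrc
    obtain ⟨x, hx, hxa, hxb, hnin⟩ := hsrc
    have ha' : a ∈ S.erase x := Finset.mem_erase.2 ⟨Ne.symm hxa, ha⟩
    have hb' : b ∈ S.erase x := Finset.mem_erase.2 ⟨Ne.symm hxb, hb⟩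
    have hcard : (S.erase x).card ≤ N := by
      rw [Finset.card_erase_of_mem hx]; omega
    -- out directions do not change
    have hout : ∀ y ∈ S.erase x, D.out (S.erase x) y = D.out S y := by
      intro y hy
      ext k
      rw [D.mem_out, D.mem_out]
      constructor
      · rintro ⟨h1, h2⟩; exact ⟨h1, Finset.mem_of_mem_erase h2⟩
      · rintro ⟨h1, h2⟩
        refine ⟨h1, Finset.mem_erase.2 ⟨?_, h2⟩⟩
        intro h3
        exact hnin y (Finset.mem_of_mem_erase hy) k h1 h3.symm
    have hsumerase : ∑ y ∈ S.erase x, D.wt (S.erase x) a b y ≤ ∑ y ∈ S, D.wt S a b y := by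
      rw [Finset.sum_congr rfl fun y hy => wt_congr (hout y hy)]
      exact Finset.sum_le_sum_of_subset_of_nonneg (Finset.erase_subset _ _)
        fun y _ _ => wt_nonneg hm S a b y
    by_cases hcut : Conn D.adj (S.erase x) a b
    · exact (ih _ hcard a b ha' hb' hcut).trans hsumerase
    · obtain ⟨⟨p, hp, hpx⟩, ⟨q, hq, hqx⟩, hdisj⟩ :=
        exists_split adj_symm hx ha hb (Ne.symm hxa) (Ne.symm hxb) hconn hcut
      -- out directions in components
      have houtc : ∀ u, ∀ y ∈ comp D.adj (S.erase x) u,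
          D.out (comp D.adj (S.erase x) u) y = D.out S y := by
        intro u y hy
        rw [← hout y (comp_subset _ _ hy)]
        ext k
        rw [D.mem_out, D.mem_out]
        constructor
        · rintro ⟨h1, h2⟩; exact ⟨h1, comp_subset _ _ h2⟩
        · rintro ⟨h1, h2⟩
          exact ⟨h1, comp_closed hy h2 ⟨k, Or.inl ⟨h1, rfl⟩⟩⟩
      have hcc : ∀ u, (comp D.adj (S.erase x) u).card ≤ N := fun u =>
        (Finset.card_le_card (comp_subset _ _)).trans hcard
      have h1 := ih _ (hcc a) a p (self_mem_comp ha') hp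
        (conn_comp ha' (mem_comp.1 hp).2)
      have h2 := ih _ (hcc b) q b hq (self_mem_comp hb')
        ((conn_comp hb' (mem_comp.1 hq).2).symm adj_symm)
      -- compare the weights
      have h3 : ∑ y ∈ comp D.adj (S.erase x) a, D.wt (comp D.adj (S.erase x) a) a p y ≤
          ∑ y ∈ comp D.adj (S.erase x) a, D.wt S a b y := by
        apply Finset.sum_le_sum
        intro y hy
        rw [wt_congr (houtc a y hy)]
        apply wt_le hm
        rintro (h | h)
        · exact Or.inl h
        · exfalso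
          rw [h] at hy
          exact Finset.disjoint_left.1 hdisj hy (self_mem_comp hb')
      have h4 : ∑ y ∈ comp D.adj (S.erase x) b, D.wt (comp D.adj (S.erase x) b) q b y ≤
          ∑ y ∈ comp D.adj (S.erase x) b, D.wt S a b y := by
        apply Finset.sum_le_sum
        intro y hy
        rw [wt_congr (houtc b y hy)]
        apply wt_le hm
        rintro (h | h)
        · exfalso
          rw [h] at hy
          exact Finset.disjoint_left.1 hdisj (self_mem_comp ha') hy
        · exact Or.inr h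
      have h5 : ∑ y ∈ comp D.adj (S.erase x) a, D.wt S a b y +
          ∑ y ∈ comp D.adj (S.erase x) b, D.wt S a b y ≤ ∑ y ∈ S, D.wt S a b y := by
        rw [← Finset.sum_union hdisj]
        apply Finset.sum_le_sum_of_subset_of_nonneg
        · intro y hy
          rw [Finset.mem_union] at hy
          rcases hy with hy | hy
          · exact Finset.mem_of_mem_erase (comp_subset _ _ hy)
          · exact Finset.mem_of_mem_erase (comp_subset _ _ hy)
        · intro y _ _
          exact wt_nonneg hm S a b y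
      have h6 := adj_tau hτ hpx
      have h7 := adj_tau hτ hqx
      rw [abs_le] at h6 h7
      have h8 : (m : ℤ) * (τ b - τ a + 2) ≤
          (m : ℤ) * (τ p - τ a + 2) + (m : ℤ) * (τ b - τ q + 2) := by
        rw [← mul_add]
        apply mul_le_mul_of_nonneg_left _ (by linarith)
        linarith [h6.1, h6.2, h7.1, h7.2]
      linarith

end Dat

end Pool.Agent.Helper70.Rep
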