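import Mathlib
import Pool.Agent.Helper70.PercRep.Conn

/-!
# Removing vertices of small degree
-/

set_option linter.unusedSectionVars false
set_option linter.unusedVariables false

namespace Pool.Agent.Helper70.Rep

open Finset Relation

variable {V : Type*} [DecidableEq V]

open Classical in
/-- neighbours inside `S` -/
noncomputable def nb (adj : V → V → Prop) (S : Finset V) (x : V) : Finset V :=
  S.filter fun y => adj x y

lemma mem_nb {adj : V → V → Prop} {S : Finset V} {x y : V} :
    y ∈ nb adj S x ↔ y ∈ S ∧ adj x y := by
  unfold nb; simp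

/-- degree inside `S` -/
noncomputable def dgr (adj : V → V → Prop) (S : Finset V) (x : V) : ℕ := (nb adj S x).card

/-- weight -/
noncomputable def W (adj : V → V → Prop) (m : ℕ) (S : Finset V) (x : V) : ℤ :=
  max 0 ((m : ℤ) + 2 - dgr adj S x)

section

variable {adj : V → V → Prop} (hs : ∀ x y, adj x y → adj y x) (hi : ∀ x, ¬ adj x x)

lemma dgr_erase_le (S : Finset V) (x y : V) : dgr adj (S.erase x) y ≤ dgr adj S y := by
  unfold dgr
  apply Finset.card_le_card
  intro z hz
  rw [mem_nb] at hz ⊢
  exact ⟨Finset.mem_of_mem_erase hz.1, hz.2⟩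

open Classical in
lemma dgr_le_erase (S : Finset V) (x y : V) :
    dgr adj S y ≤ dgr adj (S.erase x) y + (if adj y x then 1 else 0) := by
  unfold dgr
  split_ifs with h
  · refine (Finset.card_le_card (t := insert x (nb adj (S.erase x) y)) ?_).trans
      (Finset.card_insert_le _ _)
    intro z hz
    rw [mem_nb] at hz
    rw [Finset.mem_insert, mem_nb, Finset.mem_erase]
    by_cases hzx : z = x
    · exact Or.inl hzx
    · exact Or.inr ⟨⟨hzx, hz.1⟩, hz.2⟩
  · rw [Nat.add_zero]
    apply Finset.card_le_card
    intro z hz
    rw [mem_nb] at hz ⊢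
    refine ⟨Finset.mem_erase.2 ⟨?_, hz.1⟩, hz.2⟩
    rintro rfl
    exact h hz.2

include hs hi in
open Classical in
lemma sum_adj (S : Finset V) {x : V} :
    ∑ y ∈ S.erase x, (if adj y x then (1 : ℤ) else 0) = dgr adj S x := by
  rw [← Finset.sum_filter, Finset.sum_const, nsmul_eq_mul, mul_one]
  unfold dgr
  congr 2
  ext y
  rw [Finset.mem_filter, mem_nb, Finset.mem_erase]
  constructor
  · rintro ⟨⟨_, h1⟩, h2⟩; exact ⟨h1, hs _ _ h2⟩
  · rintro ⟨h1, h2⟩
    refine ⟨⟨?_, h1⟩, hs _ _ h2⟩
    rintro rfl
    exact hi _ h2

lemma W_nonneg (m : ℕ) (S : Finset V) (x : V) : 0 ≤ W adj m S x := le_max_left _ _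

include hi in
/-- the extended piece `insert x A` -/
lemma piece (m : ℕ) {S A : Finset V} {x : V} (hx : x ∉ A) (hAS : A ⊆ S) (hxS : x ∈ S)
    (hcl : ∀ y ∈ A, ∀ z ∈ S, adj y z → z = x ∨ z ∈ A) (hd : dgr adj S x ≤ m + 2) :
    ∑ y ∈ insert x A, W adj m (insert x A) y =
      ((m : ℤ) + 2 - (nb adj A x).card) + ∑ y ∈ A, W adj m S y := by
  rw [Finset.sum_insert hx]
  congr 1
  · unfold W dgr
    have h1 : nb adj (insert x A) x = nb adj A x := by
      ext z
      rw [mem_nb, mem_nb, Finset.mem_insert]
      constructor
      · rintro ⟨rfl | h1, h2⟩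
        · exact absurd h2 (hi _)
        · exact ⟨h1, h2⟩
      · rintro ⟨h1, h2⟩; exact ⟨Or.inr h1, h2⟩
    rw [h1]
    apply max_eq_right
    have h2 : (nb adj A x).card ≤ dgr adj S x := by
      unfold dgr
      apply Finset.card_le_card
      intro z hz
      rw [mem_nb] at hz ⊢
      exact ⟨hAS hz.1, hz.2⟩
    have h3 : ((nb adj A x).card : ℤ) ≤ ((m + 2 : ℕ) : ℤ) := by exact_mod_cast h2.trans hd
    push_cast at h3
    linarith
  · apply Finset.sum_congr rfl
    intro y hy
    unfold W dgr
    have h1 : nb adj (insert x A) y = nb adj S y := by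
      ext z
      rw [mem_nb, mem_nb, Finset.mem_insert]
      constructor
      · rintro ⟨rfl | h1, h2⟩
        · exact ⟨hxS, h2⟩
        · exact ⟨hAS h1, h2⟩
      · rintro ⟨h1, h2⟩
        exact ⟨hcl y hy z h1 h2, h2⟩
    rw [h1]

include hs hi in
/-- reduction to the case of inner degrees at least four -/
theorem reduce {m : ℕ} (hm : 4 ≤ m) {τ : V → ℤ}
    (hbase : ∀ (S : Finset V) (a b : V), a ∈ S → b ∈ S → Conn adj S a b →
      (∀ x ∈ S, x ≠ a → x ≠ b → 4 ≤ dgr adj S x) →
      (m : ℤ) * (τ b - τ a + 1) + 2 ≤ ∑ x ∈ S, W adj m S x) (N : ℕ) :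
    ∀ (S : Finset V), S.card ≤ N → ∀ (a b : V), a ∈ S → b ∈ S → Conn adj S a b →
      (m : ℤ) * (τ b - τ a + 1) + 2 ≤ ∑ x ∈ S, W adj m S x := by
  classical
  have hm' : (4 : ℤ) ≤ m := by exact_mod_cast hm
  induction N with
  | zero =>
    intro S hS a b ha
    rw [Nat.le_zero, Finset.card_eq_zero] at hS
    rw [hS] at ha
    exact absurd ha (Finset.notMem_empty _)
  | succ N ih =>
    intro S hS a b ha hb hconn
    by_cases hall : ∀ x ∈ S, x ≠ a → x ≠ b → 4 ≤ dgr adj S x
    · exact hbase S a b ha hb hconn hall
    push Not at hall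
    obtain ⟨x, hx, hxa, hxb, hxd⟩ := hall
    have ha' : a ∈ S.erase x := Finset.mem_erase.2 ⟨Ne.symm hxa, ha⟩
    have hb' : b ∈ S.erase x := Finset.mem_erase.2 ⟨Ne.symm hxb, hb⟩
    have hcard : (S.erase x).card ≤ N := by
      rw [Finset.card_erase_of_mem hx]; omega
    have hWx : W adj m S x = (m : ℤ) + 2 - dgr adj S x := by
      unfold W
      apply max_eq_right
      have : (dgr adj S x : ℤ) < 4 := by exact_mod_cast hxd
      linarith
    have hxd' : (dgr adj S x : ℤ) ≤ 3 := by
      have : (dgr adj S x : ℤ) < 4 := by exact_mod_cast hxd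
      linarith
    by_cases hcut : Conn adj (S.erase x) a b
    · have h1 := ih _ hcard a b ha' hb' hcut
      have h2 : ∑ y ∈ S.erase x, W adj m (S.erase x) y ≤
          ∑ y ∈ S.erase x, (W adj m S y + (if adj y x then (1 : ℤ) else 0)) := by
        apply Finset.sum_le_sum
        intro y hy
        unfold W
        have h3 := dgr_le_erase (adj := adj) S x y
        have h4 : (dgr adj S y : ℤ) ≤
            dgr adj (S.erase x) y + (if adj y x then (1 : ℤ) else 0) := by
          by_cases h5 : adj y x
          · rw [if_pos h5] at h3 ⊢; exact_mod_cast h3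
          · rw [if_neg h5] at h3 ⊢
            rw [Nat.add_zero] at h3
            rw [add_zero]
            exact_mod_cast h3
        have h5 : (0 : ℤ) ≤ (if adj y x then (1 : ℤ) else 0) := by split_ifs <;> norm_num
        apply max_le
        · exact add_nonneg (le_max_left _ _) h5
        · have h6 := le_max_right (0 : ℤ) ((m : ℤ) + 2 - dgr adj S y)
          linarith
      rw [Finset.sum_add_distrib, sum_adj hs hi] at h2
      have h3 := Finset.add_sum_erase S (fun y => W adj m S y) hx
      rw [hWx] at h3
      linarith
    · obtain ⟨⟨p, hp, hpx⟩, ⟨q, hq, hqx⟩, hdisj⟩ :=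
        exists_split hs hx ha hb (Ne.symm hxa) (Ne.symm hxb) hconn hcut
      set A := comp adj (S.erase x) a with hA
      set B := comp adj (S.erase x) b with hB
      set R := (S.erase x) \ (A ∪ B) with hR
      have hAE : A ⊆ S.erase x := comp_subset _ _
      have hBE : B ⊆ S.erase x := comp_subset _ _
      have hRE : R ⊆ S.erase x := Finset.sdiff_subset
      have hES : S.erase x ⊆ S := Finset.erase_subset _ _
      have hnx : ∀ T, T ⊆ S.erase x → x ∉ T := fun T hT h => Finset.notMem_erase x S (hT h)
      have hclA : ∀ y ∈ A, ∀ z ∈ S, adj y z → z = x ∨ z ∈ A := by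
        intro y hy z hz h
        by_cases hzx : z = x
        · exact Or.inl hzx
        · exact Or.inr (comp_closed hy (Finset.mem_erase.2 ⟨hzx, hz⟩) h)
      have hclB : ∀ y ∈ B, ∀ z ∈ S, adj y z → z = x ∨ z ∈ B := by
        intro y hy z hz h
        by_cases hzx : z = x
        · exact Or.inl hzx
        · exact Or.inr (comp_closed hy (Finset.mem_erase.2 ⟨hzx, hz⟩) h)
      have hclR : ∀ y ∈ R, ∀ z ∈ S, adj y z → z = x ∨ z ∈ R := by
        intro y hy z hz h
        by_cases hzx : z = x
        · exact Or.inl hzx
        · right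
          rw [hR, Finset.mem_sdiff, Finset.mem_union] at hy ⊢
          refine ⟨Finset.mem_erase.2 ⟨hzx, hz⟩, ?_⟩
          rintro (h1 | h1)
          · exact hy.2 (Or.inl (comp_closed h1 hy.1 (hs _ _ h)))
          · exact hy.2 (Or.inr (comp_closed h1 hy.1 (hs _ _ h)))
      have haA : a ∈ A := self_mem_comp ha'
      have hbB : b ∈ B := self_mem_comp hb'
      have hcA : (insert x A).card ≤ N := by
        have h1 : (insert x A) ⊆ S.erase b := by
          intro z hz
          rw [Finset.mem_insert] at hz
          rw [Finset.mem_erase]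
          rcases hz with rfl | hz
          · exact ⟨hxb, hx⟩
          · refine ⟨?_, hES (hAE hz)⟩
            rintro rfl
            exact Finset.disjoint_left.1 hdisj hz hbB
        have h2 := Finset.card_le_card h1
        rw [Finset.card_erase_of_mem hb] at h2
        omega
      have hcB : (insert x B).card ≤ N := by
        have h1 : (insert x B) ⊆ S.erase a := by
          intro z hz
          rw [Finset.mem_insert] at hz
          rw [Finset.mem_erase]
          rcases hz with rfl | hz
          · exact ⟨hxa, hx⟩
          · refine ⟨?_, hES (hBE hz)⟩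
            rintro rfl
            exact Finset.disjoint_left.1 hdisj haA hz
        have h2 := Finset.card_le_card h1
        rw [Finset.card_erase_of_mem ha] at h2
        omega
      have hcR : (insert x R).card ≤ N := by
        have h1 : (insert x R) ⊆ S.erase a := by
          intro z hz
          rw [Finset.mem_insert] at hz
          rw [Finset.mem_erase]
          rcases hz with rfl | hz
          · exact ⟨hxa, hx⟩
          · refine ⟨?_, hES (hRE hz)⟩
            rintro rfl
            rw [hR, Finset.mem_sdiff, Finset.mem_union] at hz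
            exact hz.2 (Or.inl haA)
        have h2 := Finset.card_le_card h1
        rw [Finset.card_erase_of_mem ha] at h2
        omega
      have hxd2 : dgr adj S x ≤ m + 2 := by omega
      have e1 := ih _ hcA a x (Finset.mem_insert_of_mem haA) (Finset.mem_insert_self _ _)
        (((conn_comp ha' (mem_comp.1 hp).2).mono (Finset.subset_insert x A)).tail
          ⟨Finset.mem_insert_of_mem hp, Finset.mem_insert_self _ _, hpx⟩)
      have e2 := ih _ hcB x b (Finset.mem_insert_self _ _) (Finset.mem_insert_of_mem hbB)
        (Conn.symm hs (((conn_comp hb' (mem_comp.1 hq).2).mono (Finset.subset_insert x B)).tail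
          ⟨Finset.mem_insert_of_mem hq, Finset.mem_insert_self _ _, hqx⟩))
      have e3 := ih _ hcR x x (Finset.mem_insert_self _ _) (Finset.mem_insert_self _ _)
        ReflTransGen.refl
      rw [piece hi m (hnx A hAE) (hAE.trans hES) hx hclA hxd2] at e1
      rw [piece hi m (hnx B hBE) (hBE.trans hES) hx hclB hxd2] at e2
      rw [piece hi m (hnx R hRE) (hRE.trans hES) hx hclR hxd2] at e3
      -- decomposition
      have hABR : S.erase x = (A ∪ B) ∪ R := by
        rw [hR, Finset.union_sdiff_of_subset (Finset.union_subset hAE hBE)]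
      have hdR : Disjoint (A ∪ B) R := by
        rw [hR]; exact Finset.disjoint_sdiff
      have hsum : ∑ y ∈ S.erase x, W adj m S y =
          ∑ y ∈ A, W adj m S y + ∑ y ∈ B, W adj m S y + ∑ y ∈ R, W adj m S y := by
        rw [hABR, Finset.sum_union hdR, Finset.sum_union hdisj]
      have hdeg : dgr adj S x = (nb adj A x).card + (nb adj B x).card + (nb adj R x).card := by
        have h1 : nb adj S x = (nb adj A x ∪ nb adj B x) ∪ nb adj R x := by
          ext z
          rw [Finset.mem_union, Finset.mem_union, mem_nb, mem_nb, mem_nb, mem_nb]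
          constructor
          · rintro ⟨h1, h2⟩
            have h3 : z ∈ S.erase x := by
              refine Finset.mem_erase.2 ⟨?_, h1⟩
              rintro rfl
              exact hi _ h2
            rw [hABR, Finset.mem_union, Finset.mem_union] at h3
            rcases h3 with (h3 | h3) | h3
            · exact Or.inl (Or.inl ⟨h3, h2⟩)
            · exact Or.inl (Or.inr ⟨h3, h2⟩)
            · exact Or.inr ⟨h3, h2⟩
          · rintro ((⟨h3, h2⟩ | ⟨h3, h2⟩) | ⟨h3, h2⟩)
            · exact ⟨hES (hAE h3), h2⟩
            · exact ⟨hES (hBE h3), h2⟩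
            · exact ⟨hES (hRE h3), h2⟩
        unfold dgr
        rw [h1, Finset.card_union_of_disjoint, Finset.card_union_of_disjoint]
        · rw [Finset.disjoint_left]
          intro z h1 h2
          rw [mem_nb] at h1 h2
          exact Finset.disjoint_left.1 hdisj h1.1 h2.1
        · rw [Finset.disjoint_left]
          intro z h1 h2
          rw [Finset.mem_union, mem_nb, mem_nb] at h1
          rw [mem_nb] at h2
          refine Finset.disjoint_left.1 hdR ?_ h2.1
          rw [Finset.mem_union]
          rcases h1 with h1 | h1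
          · exact Or.inl h1.1
          · exact Or.inr h1.1
      have h3 := Finset.add_sum_erase S (fun y => W adj m S y) hx
      rw [hWx, hsum, hdeg] at h3
      rw [← h3]
      push_cast
      linarith

include hs hi in
/-- the number of vertices of degree at most `m + 1` -/
theorem light {m : ℕ} (hm : 4 ≤ m) {τ : V → ℤ}
    (hW : ∀ (S : Finset V) (a b : V), a ∈ S → b ∈ S → Conn adj S a b →
      (m : ℤ) * (τ b - τ a + 1) + 2 ≤ ∑ x ∈ S, W adj m S x) (N : ℕ) :
    ∀ (S : Finset V), S.card ≤ N → ∀ (a b : V), a ∈ S → b ∈ S → Conn adj S a b →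
      τ b - τ a + 1 ≤ ((S.filter fun x => dgr adj S x ≤ m + 1).card : ℤ) := by
  classical
  have hm' : (4 : ℤ) ≤ m := by exact_mod_cast hm
  induction N with
  | zero =>
    intro S hS a b ha
    rw [Nat.le_zero, Finset.card_eq_zero] at hS
    rw [hS] at ha
    exact absurd ha (Finset.notMem_empty _)
  | succ N ih =>
    intro S hS a b ha hb hconn
    by_cases hall : ∀ x ∈ S, x ≠ a → x ≠ b → 2 ≤ dgr adj S x
    · have h1 := hW S a b ha hb hconn
      have hpt : ∀ x ∈ S, W adj m S x ≤ (m : ℤ) * (if dgr adj S x ≤ m + 1 then 1 else 0) +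
          ((if x = a then 1 else 0) + (if x = b then 1 else 0)) := by
        intro x hx
        have hi1 : (0 : ℤ) ≤ (if x = a then 1 else 0) := by split_ifs <;> norm_num
        have hi2 : (0 : ℤ) ≤ (if x = b then 1 else 0) := by split_ifs <;> norm_num
        unfold W
        by_cases hd : dgr adj S x ≤ m + 1
        · rw [if_pos hd, mul_one]
          apply max_le (by linarith)
          by_cases hd2 : 2 ≤ dgr adj S x
          · have : (2 : ℤ) ≤ dgr adj S x := by exact_mod_cast hd2
            linarith
          · have hab : x = a ∨ x = b := by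
              by_contra hcon
              push Not at hcon
              exact hd2 (hall x hx hcon.1 hcon.2)
            have hd0 : (0 : ℤ) ≤ dgr adj S x := by positivity
            by_cases heq : a = b
            · subst heq
              have : x = a := by tauto
              rw [if_pos this]
              linarith
            · -- the degree is at least one
              have hd1 : 1 ≤ dgr adj S x := by
                have hother : ∃ y, Conn adj S x y ∧ x ≠ y := by
                  rcases hab with rfl | rfl
                  · exact ⟨b, hconn, heq⟩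
                  · exact ⟨a, Conn.symm hs hconn, fun h => heq h.symm⟩
                obtain ⟨y, hy, hne⟩ := hother
                rcases hy.cases_head with h2 | ⟨z, h2, _⟩
                · exact absurd h2 hne
                · unfold dgr
                  apply Finset.card_pos.2
                  exact ⟨z, mem_nb.2 ⟨h2.2.1, h2.2.2⟩⟩
              have hd1' : (1 : ℤ) ≤ dgr adj S x := by exact_mod_cast hd1
              rcases hab with h2 | h2
              · rw [if_pos h2]; linarith
              · rw [if_pos h2]; linarith
        · rw [if_neg hd, mul_zero]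
          push Not at hd
          have : ((m + 2 : ℕ) : ℤ) ≤ dgr adj S x := by exact_mod_cast hd
          push_cast at this
          apply max_le <;> linarith
      have h2 := Finset.sum_le_sum hpt
      rw [Finset.sum_add_distrib, Finset.sum_add_distrib, ← Finset.mul_sum] at h2
      have h3 : ∑ x ∈ S, (if x = a then (1 : ℤ) else 0) = 1 := by
        rw [Finset.sum_ite_eq' S a]; rw [if_pos ha]
      have h4 : ∑ x ∈ S, (if x = b then (1 : ℤ) else 0) = 1 := by
        rw [Finset.sum_ite_eq' S b]; rw [if_pos hb]
      have h5 : ∑ x ∈ S, (if dgr adj S x ≤ m + 1 then (1 : ℤ) else 0) =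
          ((S.filter fun x => dgr adj S x ≤ m + 1).card : ℤ) := by
        rw [← Finset.sum_filter, Finset.sum_const, nsmul_eq_mul, mul_one]
      rw [h3, h4, h5] at h2
      have h6 : (m : ℤ) * (τ b - τ a + 1) ≤
          (m : ℤ) * ((S.filter fun x => dgr adj S x ≤ m + 1).card : ℤ) := by linarith
      exact le_of_mul_le_mul_left h6 (by linarith)
    · push Not at hall
      obtain ⟨x, hx, hxa, hxb, hxd⟩ := hall
      have ha' : a ∈ S.erase x := Finset.mem_erase.2 ⟨Ne.symm hxa, ha⟩
      have hb' : b ∈ S.erase x := Finset.mem_erase.2 ⟨Ne.symm hxb, hb⟩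
      have hcard : (S.erase x).card ≤ N := by
        rw [Finset.card_erase_of_mem hx]; omega
      have hcut : Conn adj (S.erase x) a b := by
        by_contra hcut
        obtain ⟨⟨p, hp, hpx⟩, ⟨q, hq, hqx⟩, hdisj⟩ :=
          exists_split hs hx ha hb (Ne.symm hxa) (Ne.symm hxb) hconn hcut
        have hpq : p ≠ q := by
          rintro rfl
          exact Finset.disjoint_left.1 hdisj hp hq
        have h1 : ({p, q} : Finset V) ⊆ nb adj S x := by
          intro z hz
          rw [Finset.mem_insert, Finset.mem_singleton] at hz
          rw [mem_nb]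
          rcases hz with rfl | rfl
          · exact ⟨Finset.mem_of_mem_erase (comp_subset _ _ hp), hs _ _ hpx⟩
          · exact ⟨Finset.mem_of_mem_erase (comp_subset _ _ hq), hs _ _ hqx⟩
        have h2 := Finset.card_le_card h1
        rw [Finset.card_pair hpq] at h2
        unfold dgr at hxd
        omega
      refine (ih _ hcard a b ha' hb' hcut).trans ?_
      have h1 : ((S.erase x).filter fun y => dgr adj (S.erase x) y ≤ m + 1) ⊆
          ((S.filter fun y => dgr adj S y ≤ m + 1).erase x) ∪ nb adj S x := by
        intro y hy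
        rw [Finset.mem_filter, Finset.mem_erase] at hy
        rw [Finset.mem_union, Finset.mem_erase, Finset.mem_filter, mem_nb]
        by_cases hyx : adj y x
        · exact Or.inr ⟨hy.1.2, hs _ _ hyx⟩
        · left
          refine ⟨hy.1.1, hy.1.2, ?_⟩
          have h2 := dgr_le_erase (adj := adj) S x y
          rw [if_neg hyx] at h2
          omega
      have h2 := (Finset.card_le_card h1).trans (Finset.card_union_le _ _)
      have h3 : x ∈ (S.filter fun y => dgr adj S y ≤ m + 1) := by
        rw [Finset.mem_filter]; exact ⟨hx, by omega⟩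
      rw [Finset.card_erase_of_mem h3] at h2
      have h4 : 0 < (S.filter fun y => dgr adj S y ≤ m + 1).card := Finset.card_pos.2 ⟨x, h3⟩
      have h5 : (nb adj S x).card < 2 := hxd
      have h6 : ((S.erase x).filter fun y => dgr adj (S.erase x) y ≤ m + 1).card ≤
          (S.filter fun y => dgr adj S y ≤ m + 1).card := by omega
      exact_mod_cast h6

end

end Pool.Agent.Helper70.Rep
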