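import Mathlib
import Pool.Agent.Helper70.PercRep.Master
import Pool.Agent.Helper70.PercRep.Avg
import Pool.Agent.Helper70.PercRep.Reduce

/-!
# The tube inequality in the lattice
-/

set_option linter.unusedSectionVars false
set_option linter.unusedVariables false

namespace Pool.Agent.Helper70.Rep

open Finset Relation

section lattice

variable {m : ℕ} (e : Fin m → (Fin m → ℤ) → Prop)

/-- one step -/
def stp (k : Fin m) (b : Bool) (x : Fin m → ℤ) : Fin m → ℤ :=
  if b then x + Pi.single k 1 else x - Pi.single k 1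

/-- the bond in direction `(k, b)` is present -/
def ed (k : Fin m) (b : Bool) (x : Fin m → ℤ) : Prop :=
  if b then e k x else e k (x - Pi.single k 1)

/-- adjacency -/
def gadj (x y : Fin m → ℤ) : Prop := ∃ k b, ed e k b x ∧ y = stp k b x

lemma stp_not (k : Fin m) (b : Bool) (x : Fin m → ℤ) : stp k (!b) (stp k b x) = x := by
  cases b <;> simp [stp]

lemma ed_not (k : Fin m) (b : Bool) (x : Fin m → ℤ) :
    ed e k (!b) (stp k b x) ↔ ed e k b x := by
  cases b <;> simp [stp, ed]

lemma gadj_symm (x y : Fin m → ℤ) (h : gadj e x y) : gadj e y x := by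
  obtain ⟨k, b, h1, rfl⟩ := h
  exact ⟨k, !b, (ed_not e k b x).2 h1, (stp_not k b x).symm⟩

lemma stp_apply_self (k : Fin m) (b : Bool) (x : Fin m → ℤ) :
    stp k b x k = x k + if b then 1 else -1 := by
  cases b <;> simp [stp]; ring

lemma stp_apply_ne {k j : Fin m} (h : j ≠ k) (b : Bool) (x : Fin m → ℤ) :
    stp k b x j = x j := by
  cases b <;> simp [stp, h]

lemma stp_ne (k : Fin m) (b : Bool) (x : Fin m → ℤ) : stp k b x ≠ x := by
  intro h
  have := congrFun h k
  rw [stp_apply_self] at this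
  cases b <;> simp at this

lemma gadj_irrefl (x : Fin m → ℤ) : ¬ gadj e x x := by
  rintro ⟨k, b, _, h⟩
  exact stp_ne k b x h.symm

lemma stp_inj {k k' : Fin m} {b b' : Bool} {x : Fin m → ℤ} (h : stp k b x = stp k' b' x) :
    k = k' ∧ b = b' := by
  have h1 : k = k' := by
    by_contra hne
    have := congrFun h k
    rw [stp_apply_self, stp_apply_ne hne] at this
    cases b <;> simp at this
  subst h1
  refine ⟨rfl, ?_⟩
  have := congrFun h k
  rw [stp_apply_self, stp_apply_self] at this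
  cases b <;> cases b' <;> simp at this ⊢

/-- orientation -/
def ori (σ : Fin m → Bool) : Dat (Fin m → ℤ) m where
  c x k := if σ k then x k else - x k
  nx k x := stp k (σ k) x
  e k x := ed e k (σ k) x
  hc := by
    intro k x j
    by_cases hj : j = k
    · subst hj
      rw [stp_apply_self]
      cases h : σ j <;> simp; ring
    · rw [stp_apply_ne hj]
      simp [hj]

lemma ori_adj (σ : Fin m → Bool) : (ori e σ).adj = gadj e := by
  funext x y
  apply propext
  constructor
  · rintro ⟨k, ⟨h1, h2⟩ | ⟨h1, h2⟩⟩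
    · exact ⟨k, σ k, h1, h2⟩
    · exact gadj_symm e _ _ ⟨k, σ k, h1, h2⟩
  · rintro ⟨k, b, h1, h2⟩
    by_cases hb : b = σ k
    · subst hb; exact ⟨k, Or.inl ⟨h1, h2⟩⟩
    · have hb' : σ k = !b := by
        cases b <;> cases h : σ k <;> simp_all
      refine ⟨k, Or.inr ⟨?_, ?_⟩⟩
      · show ed e k (σ k) y
        rw [hb', h2]
        exact (ed_not e k b x).2 h1
      · show x = stp k (σ k) y
        rw [hb', h2, stp_not]

variable {e}

open Classical in
lemma dgr_eq (S : Finset (Fin m → ℤ)) (x : Fin m → ℤ) :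
    dgr (gadj e) S x = dg (fun k b => ed e k b x ∧ stp k b x ∈ S) := by
  unfold dgr dg nn
  have h1 : nb (gadj e) S x = ((univ : Finset (Fin m × Bool)).filter
      fun i => ed e i.1 i.2 x ∧ stp i.1 i.2 x ∈ S).image fun i => stp i.1 i.2 x := by
    ext y
    rw [mem_nb, Finset.mem_image]
    constructor
    · rintro ⟨h1, k, b, h2, rfl⟩
      exact ⟨(k, b), Finset.mem_filter.2 ⟨Finset.mem_univ _, h2, h1⟩, rfl⟩
    · rintro ⟨⟨k, b⟩, h1, rfl⟩
      rw [Finset.mem_filter] at h1
      exact ⟨h1.2.2, k, b, h1.2.1, rfl⟩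
  rw [h1, Finset.card_image_of_injOn]
  · rw [Finset.card_filter, Fintype.sum_prod_type]
    apply Finset.sum_congr rfl
    intro k _
    rw [Finset.card_filter]
  · rintro ⟨k, b⟩ _ ⟨k', b'⟩ _ h
    obtain ⟨h1, h2⟩ := stp_inj h
    exact Prod.ext h1 h2

open Classical in
lemma out_ori (σ : Fin m → Bool) (S : Finset (Fin m → ℤ)) (x : Fin m → ℤ) :
    (ori e σ).out S x = outp (fun k b => ed e k b x ∧ stp k b x ∈ S) σ := by
  ext k
  rw [Dat.mem_out]
  unfold outp
  rw [Finset.mem_filter]
  simp only [Finset.mem_univ, true_and]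
  rfl

open Classical in
lemma wt_ori (σ : Fin m → Bool) (S : Finset (Fin m → ℤ)) (a b x : Fin m → ℤ) :
    (ori e σ).wt S a b x = fw m (if x = a ∨ x = b then (m : ℤ) else 2 * ((m : ℤ) - 1))
      (outp (fun k b => ed e k b x ∧ stp k b x ∈ S) σ).card := by
  unfold Dat.wt fw
  rw [out_ori]

/-- the case of inner degrees at least four -/
theorem base (hm : 4 ≤ m) {τ : (Fin m → ℤ) → ℤ}
    (hτ : ∀ k x, e k x → |τ (x + Pi.single k 1) - τ x| ≤ 1)
    (S : Finset (Fin m → ℤ)) (a b : Fin m → ℤ) (ha : a ∈ S) (hb : b ∈ S)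
    (hconn : Conn (gadj e) S a b)
    (hdeg : ∀ x ∈ S, x ≠ a → x ≠ b → 4 ≤ dgr (gadj e) S x) :
    (m : ℤ) * (τ b - τ a + 1) + 2 ≤ ∑ x ∈ S, W (gadj e) m S x := by
  classical
  have hm' : (4 : ℤ) ≤ m := by exact_mod_cast hm
  by_cases hiso : dgr (gadj e) S a = 0 ∨ dgr (gadj e) S b = 0
  · -- an isolated end point
    have hab : a = b := by
      by_contra hne
      rcases hiso with h | h
      · rcases hconn.cases_head with h2 | ⟨z, h2, _⟩
        · exact hne h2
        · unfold dgr at h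
          rw [Finset.card_eq_zero] at h
          have : z ∈ nb (gadj e) S a := mem_nb.2 ⟨h2.2.1, h2.2.2⟩
          rw [h] at this
          exact absurd this (Finset.notMem_empty _)
      · rcases (Conn.symm (gadj_symm e) hconn).cases_head with h2 | ⟨z, h2, _⟩
        · exact hne h2.symm
        · unfold dgr at h
          rw [Finset.card_eq_zero] at h
          have : z ∈ nb (gadj e) S b := mem_nb.2 ⟨h2.2.1, h2.2.2⟩
          rw [h] at this
          exact absurd this (Finset.notMem_empty _)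
    subst hab
    have h0 : dgr (gadj e) S a = 0 := by tauto
    have h1 := Finset.single_le_sum (f := fun x => W (gadj e) m S x)
      (fun x _ => W_nonneg m S x) ha
    have h2 : W (gadj e) m S a = (m : ℤ) + 2 := by
      unfold W
      rw [h0]
      rw [max_eq_right] <;> push_cast <;> linarith
    rw [h2] at h1
    linarith
  push Not at hiso
  have hτ' : ∀ σ : Fin m → Bool, ∀ k x, (ori e σ).e k x → |τ ((ori e σ).nx k x) - τ x| ≤ 1 := by
    intro σ k x h
    have h' : ed e k (σ k) x := h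
    show |τ (stp k (σ k) x) - τ x| ≤ 1
    cases hk : σ k
    · rw [hk] at h'
      have h2 : e k (x - Pi.single k 1) := by simpa [ed] using h'
      have h3 := hτ k _ h2
      rw [sub_add_cancel, abs_sub_comm] at h3
      simpa [stp] using h3
    · rw [hk] at h'
      have h2 : e k x := by simpa [ed] using h'
      simpa [stp] using hτ k _ h2
  have hσ : ∀ σ : Fin m → Bool, (m : ℤ) * (τ b - τ a + 2) ≤ ∑ x ∈ S, (ori e σ).wt S a b x := by
    intro σ
    refine Dat.master (by omega) (hτ' σ) S.card S le_rfl a b ha hb ?_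
    rw [ori_adj]; exact hconn
  have hsum := Finset.sum_le_sum fun (σ : Fin m → Bool) (_ : σ ∈ univ) => hσ σ
  rw [Finset.sum_comm, Finset.sum_const] at hsum
  simp only [Finset.card_univ, Fintype.card_fun, Fintype.card_bool, Fintype.card_fin,
    nsmul_eq_mul] at hsum
  push_cast at hsum
  have hpt : ∀ x ∈ S, 2 * ∑ σ, (ori e σ).wt S a b x ≤
      2 * (2 ^ m * W (gadj e) m S x) +
        ((if x = a then 2 ^ m * ((m : ℤ) - 2) else 0) +
          (if x = b then 2 ^ m * ((m : ℤ) - 2) else 0)) := by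
    intro x hx
    have hpos : (0 : ℤ) ≤ 2 ^ m * ((m : ℤ) - 2) := mul_nonneg (by positivity) (by linarith)
    have hi1 : (0 : ℤ) ≤ (if x = a then 2 ^ m * ((m : ℤ) - 2) else 0) := by
      split_ifs
      · exact hpos
      · exact le_rfl
    have hi2 : (0 : ℤ) ≤ (if x = b then 2 ^ m * ((m : ℤ) - 2) else 0) := by
      split_ifs
      · exact hpos
      · exact le_rfl
    have hW : W (gadj e) m S x =
        max 0 ((m : ℤ) + 2 - dg (fun k b => ed e k b x ∧ stp k b x ∈ S)) := by
      unfold W; rw [dgr_eq]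
    rw [Finset.sum_congr rfl fun σ _ => wt_ori σ S a b x, hW]
    by_cases hxab : x = a ∨ x = b
    · rw [if_pos hxab]
      have hd : 1 ≤ dg (fun k b => ed e k b x ∧ stp k b x ∈ S) := by
        rw [← dgr_eq]
        rcases hxab with h | h
        · rw [h]; exact Nat.pos_of_ne_zero hiso.1
        · rw [h]; exact Nat.pos_of_ne_zero hiso.2
      have h1 := avg_end (fun k b => ed e k b x ∧ stp k b x ∈ S) hm hd
      rcases hxab with h | h
      · rw [if_pos h] at hi1 ⊢; linarith
      · rw [if_pos h] at hi2 ⊢; linarith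
    · rw [if_neg hxab]
      push Not at hxab
      have hd := hdeg x hx hxab.1 hxab.2
      rw [dgr_eq] at hd
      have h1 := avg_inner (fun k b => ed e k b x ∧ stp k b x ∈ S) hm hd
      linarith
  have h2 := Finset.sum_le_sum hpt
  rw [Finset.sum_add_distrib, Finset.sum_add_distrib, ← Finset.mul_sum, ← Finset.mul_sum,
    ← Finset.mul_sum, Finset.sum_ite_eq' S a, Finset.sum_ite_eq' S b, if_pos ha, if_pos hb] at h2
  have hpow : (0 : ℤ) < 2 ^ m := by positivity
  have h3 : (2 : ℤ) ^ m * ((m : ℤ) * (τ b - τ a + 1) + 2) ≤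
      2 ^ m * ∑ x ∈ S, W (gadj e) m S x := by nlinarith
  exact le_of_mul_le_mul_left h3 hpow

/-- the tube inequality for `m - 2` -/
theorem tubeW (hm : 4 ≤ m) {τ : (Fin m → ℤ) → ℤ}
    (hτ : ∀ k x, e k x → |τ (x + Pi.single k 1) - τ x| ≤ 1)
    (S : Finset (Fin m → ℤ)) (a b : Fin m → ℤ) (ha : a ∈ S) (hb : b ∈ S)
    (hconn : Conn (gadj e) S a b) :
    (m : ℤ) * (τ b - τ a + 1) + 2 ≤ ∑ x ∈ S, W (gadj e) m S x :=
  reduce (gadj_symm e) (gadj_irrefl e) hm
    (fun S a b ha hb hconn hdeg => base hm hτ S a b ha hb hconn hdeg) S.card S le_rfl a b ha hb hconn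

/-- the tube inequality -/
theorem tube (hm : 4 ≤ m) {τ : (Fin m → ℤ) → ℤ}
    (hτ : ∀ k x, e k x → |τ (x + Pi.single k 1) - τ x| ≤ 1)
    (S : Finset (Fin m → ℤ)) (a b : Fin m → ℤ) (ha : a ∈ S) (hb : b ∈ S)
    (hconn : Conn (gadj e) S a b) (J : ℕ) (hJ : J + 2 ≤ m) :
    (2 * (m : ℤ) - 2 - J) * (τ b - τ a + 1) + 2 ≤
      ∑ x ∈ S, max 0 (2 * (m : ℤ) - J - dgr (gadj e) S x) := by
  classical
  have h1 := tubeW hm hτ S a b ha hb hconn
  have h2 := light (gadj_symm e) (gadj_irrefl e) hm (τ := τ)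
    (fun S a b ha hb hconn => tubeW hm hτ S a b ha hb hconn) S.card S le_rfl a b ha hb hconn
  have hJ' : (J : ℤ) + 2 ≤ m := by exact_mod_cast hJ
  have hpt : ∀ x ∈ S, W (gadj e) m S x +
      ((m : ℤ) - 2 - J) * (if dgr (gadj e) S x ≤ m + 1 then 1 else 0) ≤
      max 0 (2 * (m : ℤ) - J - dgr (gadj e) S x) := by
    intro x _
    unfold W
    by_cases hd : dgr (gadj e) S x ≤ m + 1
    · rw [if_pos hd, mul_one]
      have hd' : (dgr (gadj e) S x : ℤ) ≤ m + 1 := by exact_mod_cast hd
      rw [max_eq_right (by linarith)]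
      refine le_trans ?_ (le_max_right _ _)
      linarith
    · rw [if_neg hd, mul_zero, add_zero]
      have hd' : ((m + 2 : ℕ) : ℤ) ≤ dgr (gadj e) S x := by
        have : m + 2 ≤ dgr (gadj e) S x := by omega
        exact_mod_cast this
      push_cast at hd'
      rw [max_eq_left (by linarith)]
      exact le_max_left _ _
  have h3 := Finset.sum_le_sum hpt
  rw [Finset.sum_add_distrib, ← Finset.mul_sum] at h3
  have h5 : ∑ x ∈ S, (if dgr (gadj e) S x ≤ m + 1 then (1 : ℤ) else 0) =
      ((S.filter fun x => dgr (gadj e) S x ≤ m + 1).card : ℤ) := by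
    rw [← Finset.sum_filter, Finset.sum_const, nsmul_eq_mul, mul_one]
  rw [h5] at h3
  have h6 : ((m : ℤ) - 2 - J) * (τ b - τ a + 1) ≤
      ((m : ℤ) - 2 - J) * ((S.filter fun x => dgr (gadj e) S x ≤ m + 1).card : ℤ) :=
    mul_le_mul_of_nonneg_left h2 (by linarith)
  linarith

end lattice

end Pool.Agent.Helper70.Rep
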