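import Mathlib
import Pool.Agent.Helper70.PercUpper2
import Pool.Agent.Helper70.PercRep.Tube

/-!
# The sharp upper bound for percolation times when `r < d`
-/

set_option linter.unusedSectionVars false
set_option linter.unusedVariables false

namespace Pool.Agent.Helper70.Rep

open Finset Relation Pool.Agent.Helper19.Perco Pool.Agent.Helper70.Duo

section

variable {d n : ℕ}

/-- embedding of the box -/
def io (x : Fin d → Fin n) : Fin d → ℤ := fun i => ((x i).val : ℤ)

lemma io_inj : Function.Injective (io : (Fin d → Fin n) → Fin d → ℤ) := by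
  intro x y h
  funext i
  have := congrFun h i
  unfold io at this
  exact Fin.ext (by exact_mod_cast this)

/-- the box in the lattice -/
def bx (d n : ℕ) : Finset (Fin d → ℤ) := (univ : Finset (Fin d → Fin n)).image io

variable (t : (Fin d → Fin n) → ℕ)

/-- the time function on the lattice -/
noncomputable def tl : (Fin d → ℤ) → ℤ := Function.extend io (fun x => (t x : ℤ)) 0

lemma tl_io (x : Fin d → Fin n) : tl t (io x) = t x := by
  unfold tl
  exact io_inj.extend_apply _ _ _

/-- bonds between points with close times -/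
def eb (k : Fin d) (z : Fin d → ℤ) : Prop :=
  ∃ x y : Fin d → Fin n, io x = z ∧ io y = z + Pi.single k 1 ∧ t x ≤ t y + 1 ∧ t y ≤ t x + 1

lemma eb_tl (k : Fin d) (z : Fin d → ℤ) (h : eb t k z) :
    |tl t (z + Pi.single k 1) - tl t z| ≤ 1 := by
  obtain ⟨x, y, rfl, hy, h1, h2⟩ := h
  rw [← hy, tl_io, tl_io, abs_le]
  constructor <;> omega

lemma adj_of_step {x y : Fin d → Fin n} {k : Fin d} (h : io y = io x + Pi.single k 1) :
    (Gd d n).Adj x y := by
  refine ⟨k, Or.inl ?_, ?_⟩
  · have := congrFun h k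
    simp [io] at this
    omega
  · intro j hj
    have := congrFun h j
    simp [io, hj] at this
    exact Fin.ext (by omega)

lemma step_of_adj {x y : Fin d → Fin n} (h : (Gd d n).Adj x y) :
    ∃ k, io y = io x + Pi.single k 1 ∨ io x = io y + Pi.single k 1 := by
  obtain ⟨k, h1 | h1, h2⟩ := h
  · refine ⟨k, Or.inl ?_⟩
    funext j
    by_cases hj : j = k
    · subst hj; simp [io]; omega
    · simp [io, hj, h2 j hj]
  · refine ⟨k, Or.inr ?_⟩
    funext j
    by_cases hj : j = k
    · subst hj; simp [io]; omega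
    · simp [io, hj, h2 j hj]

lemma gadj_io {x y : Fin d → Fin n} :
    gadj (eb t) (io x) (io y) ↔ (Gd d n).Adj x y ∧ t x ≤ t y + 1 ∧ t y ≤ t x + 1 := by
  constructor
  · rintro ⟨k, b, h1, h2⟩
    cases b
    · have h3 : io y = io x - Pi.single k 1 := h2
      obtain ⟨x', y', h4, h5, h6, h7⟩ : eb t k (io x - Pi.single k 1) := h1
      rw [sub_add_cancel] at h5
      have e1 := io_inj h5
      rw [← h3] at h4
      have e2 := io_inj h4
      subst e1; subst e2
      refine ⟨(adj_of_step (x := x') (y := y') (k := k) ?_).symm, h7, h6⟩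
      rw [h3, sub_add_cancel]
    · have h3 : io y = io x + Pi.single k 1 := h2
      obtain ⟨x', y', h4, h5, h6, h7⟩ : eb t k (io x) := h1
      rw [← h3] at h5
      have e1 := io_inj h5
      have e2 := io_inj h4
      subst e1; subst e2
      exact ⟨adj_of_step h3, h6, h7⟩
  · rintro ⟨h1, h2, h3⟩
    obtain ⟨k, h4 | h4⟩ := step_of_adj h1
    · exact ⟨k, true, ⟨x, y, rfl, h4, h2, h3⟩, h4⟩
    · have h5 : io y = io x - Pi.single k 1 := by rw [h4, add_sub_cancel_right]
      exact ⟨k, false, ⟨y, x, h5, by rw [sub_add_cancel], h3, h2⟩, h5⟩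

open Classical in
lemma dgr_io (x : Fin d → Fin n) :
    dgr (gadj (eb t)) (bx d n) (io x) =
      (univ.filter fun y => (Gd d n).Adj x y ∧ t x ≤ t y + 1 ∧ t y ≤ t x + 1).card := by
  unfold dgr
  have h1 : nb (gadj (eb t)) (bx d n) (io x) =
      (univ.filter fun y => (Gd d n).Adj x y ∧ t x ≤ t y + 1 ∧ t y ≤ t x + 1).image io := by
    ext z
    rw [mem_nb, bx, Finset.mem_image, Finset.mem_image]
    constructor
    · rintro ⟨⟨y, _, rfl⟩, h⟩
      exact ⟨y, Finset.mem_filter.2 ⟨Finset.mem_univ _, (gadj_io t).1 h⟩, rfl⟩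
    · rintro ⟨y, hy, rfl⟩
      exact ⟨⟨y, Finset.mem_univ _, rfl⟩, (gadj_io t).2 (Finset.mem_filter.1 hy).2⟩
  rw [h1, Finset.card_image_of_injective _ io_inj]

open Classical in
/-- the sharp inequality -/
theorem sharp {r T : ℕ} (hd : 4 ≤ d) (hr : 1 ≤ r) (hrd : r < d) {A : Set (Fin d → Fin n)}
    (hA : Perc (Gd d n) r A) {v : Fin d → Fin n} (hv : tau (Gd d n) r A v = T) (hT : 1 ≤ T) :
    (2 * d - r - 1) * (T + 1) + 2 ≤ (r - 1) * n ^ d + 2 * d * n ^ (d - 1) := by
  set t := tau (Gd d n) r A with ht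
  obtain ⟨p, h1, h2, h3⟩ := exists_chain hA T hT v hv
  have h1' : ∀ j, 1 ≤ j → j ≤ T → t (p j) = j := h1
  -- a seed next to the chain
  obtain ⟨u, hu, hut⟩ : ∃ u, (Gd d n).Adj u (p 1) ∧ t u = 0 := by
    have h4 : p 1 ∈ proc (Gd d n) r A 1 := by
      rw [mem_proc_iff hA]; exact (h1 1 le_rfl hT).le
    have h5 : p 1 ∉ proc (Gd d n) r A 0 := by
      rw [mem_proc_iff hA]
      have := h1 1 le_rfl hT
      omega
    rcases h4 with h4 | h4
    · exact absurd h4 h5
    · have h6 : r ≤ cnt (Gd d n) (proc (Gd d n) r A 0) (p 1) := h4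
      have h7 : 0 < cnt (Gd d n) (proc (Gd d n) r A 0) (p 1) := by omega
      unfold cnt at h7
      obtain ⟨u, hu⟩ := (Set.ncard_pos (Set.toFinite _)).1 h7
      refine ⟨u, hu.1.symm, ?_⟩
      have := hu.2
      rw [mem_proc_iff hA] at this
      show tau (Gd d n) r A u = 0
      omega
  have hmemS : ∀ x : Fin d → Fin n, io x ∈ bx d n := fun x =>
    Finset.mem_image_of_mem _ (Finset.mem_univ _)
  have hconn : Conn (gadj (eb t)) (bx d n) (io u) (io v) := by
    have h4 : ∀ j, 1 ≤ j → j ≤ T → Conn (gadj (eb t)) (bx d n) (io u) (io (p j)) := by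
      intro j hj
      induction j, hj using Nat.le_induction with
      | base =>
        intro _
        refine ReflTransGen.single ⟨hmemS _, hmemS _, (gadj_io t).2 ⟨hu, ?_, ?_⟩⟩
        · omega
        · have := h1' 1 le_rfl hT; omega
      | succ j hj ih =>
        intro hjT
        refine (ih (by omega)).tail ⟨hmemS _, hmemS _, (gadj_io t).2 ⟨h2 j hj (by omega), ?_, ?_⟩⟩
        · have := h1' j hj (by omega); have := h1' (j + 1) (by omega) hjT; omega
        · have := h1' j hj (by omega); have := h1' (j + 1) (by omega) hjT; omega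
    rw [← h3]
    exact h4 T hT le_rfl
  have h4 := tube hd (eb_tl t) (bx d n) (io u) (io v) (hmemS u) (hmemS v) hconn (r - 1)
    (by omega)
  rw [tl_io, tl_io, hut, bx, Finset.sum_image fun x _ y _ h => io_inj h] at h4
  have hvT : t v = T := hv
  rw [hvT] at h4
  -- pointwise
  set b : (Fin d → Fin n) → ℕ := fun x =>
    (univ.filter fun y => (Gd d n).Adj x y ∧ t y + 2 ≤ t x).card with hb
  set f : (Fin d → Fin n) → ℕ := fun x =>
    (univ.filter fun y => (Gd d n).Adj x y ∧ t x + 2 ≤ t y).card with hf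
  have hbr : ∀ x, b x + 1 ≤ r := by
    intro x
    have h5 := early_le hr hA x
    have h6 : {u | (Gd d n).Adj x u ∧ tau (Gd d n) r A u + 2 ≤ tau (Gd d n) r A x}.ncard =
        (univ.filter fun y => (Gd d n).Adj x y ∧ t y + 2 ≤ t x).card := by
      rw [← Set.ncard_coe_finset]
      congr 1
      ext u; simp [ht]
    rw [h6] at h5
    exact h5
  have hdeg : ∀ x : Fin d → Fin n, b x +
      (univ.filter fun y => (Gd d n).Adj x y ∧ t x ≤ t y + 1 ∧ t y ≤ t x + 1).card + f x + bd x =
      2 * d := by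
    intro x
    rw [← deg_add_bd x]
    congr 1
    have h5 : cnt (Gd d n) Set.univ x = (univ.filter fun y => (Gd d n).Adj x y).card := by
      unfold cnt
      rw [← Set.ncard_coe_finset]
      congr 1
      ext u; simp [SimpleGraph.mem_neighborSet]
    rw [h5]
    have h6 : (univ.filter fun y => (Gd d n).Adj x y) =
        ((univ.filter fun y => (Gd d n).Adj x y ∧ t y + 2 ≤ t x) ∪
        (univ.filter fun y => (Gd d n).Adj x y ∧ t x ≤ t y + 1 ∧ t y ≤ t x + 1)) ∪
        (univ.filter fun y => (Gd d n).Adj x y ∧ t x + 2 ≤ t y) := by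
      ext y
      simp only [Finset.mem_filter, Finset.mem_univ, true_and, Finset.mem_union]
      constructor
      · intro h
        by_cases h7 : t y + 2 ≤ t x
        · exact Or.inl (Or.inl ⟨h, h7⟩)
        · by_cases h8 : t x + 2 ≤ t y
          · exact Or.inr ⟨h, h8⟩
          · exact Or.inl (Or.inr ⟨h, by omega, by omega⟩)
      · rintro ((h | h) | h) <;> exact h.1
    rw [h6, Finset.card_union_of_disjoint, Finset.card_union_of_disjoint]
    · rw [Finset.disjoint_left]
      intro y h7 h8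
      rw [Finset.mem_filter] at h7 h8
      omega
    · rw [Finset.disjoint_left]
      intro y h7 h8
      rw [Finset.mem_union, Finset.mem_filter, Finset.mem_filter] at h7
      rw [Finset.mem_filter] at h8
      omega
  have hpt : ∀ x ∈ (univ : Finset (Fin d → Fin n)),
      max 0 (2 * (d : ℤ) - ((r - 1 : ℕ) : ℤ) - dgr (gadj (eb t)) (bx d n) (io x)) ≤
      ((bd x + f x : ℕ) : ℤ) := by
    intro x _
    rw [dgr_io]
    apply max_le
    · positivity
    · have h5 := hdeg x
      have h6 := hbr x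
      have h5' : (b x : ℤ) + ((univ.filter fun y => (Gd d n).Adj x y ∧ t x ≤ t y + 1 ∧
        t y ≤ t x + 1).card : ℤ) + f x + bd x = 2 * d := by exact_mod_cast h5
      have h6' : (b x : ℤ) ≤ ((r - 1 : ℕ) : ℤ) := by
        have : b x ≤ r - 1 := by omega
        exact_mod_cast this
      push_cast
      linarith
  have h5 := h4.trans (Finset.sum_le_sum hpt)
  have hfb : ∑ x, f x = ∑ x, b x := by
    simp only [hf, hb, Finset.card_filter]
    rw [Finset.sum_comm]
    apply Finset.sum_congr rfl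
    intro x _
    apply Finset.sum_congr rfl
    intro y _
    congr 1
    rw [SimpleGraph.adj_comm]
  have hbsum : ∑ x, b x ≤ (r - 1) * n ^ d := by
    have h6 : ∑ x, b x ≤ ∑ _x : Fin d → Fin n, (r - 1) := by
      apply Finset.sum_le_sum
      intro x _
      have := hbr x
      omega
    refine h6.trans (le_of_eq ?_)
    rw [Finset.sum_const, Finset.card_univ, Fintype.card_fun, Fintype.card_fin, Fintype.card_fin,
      smul_eq_mul]
    ring
  have h6 := sum_bd d n
  have h7 : ∑ x : Fin d → Fin n, ((bd x + f x : ℕ) : ℤ) ≤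
      (((r - 1) * n ^ d + 2 * d * n ^ (d - 1) : ℕ) : ℤ) := by
    rw [← Nat.cast_sum]
    have : ∑ x : Fin d → Fin n, (bd x + f x) ≤ (r - 1) * n ^ d + 2 * d * n ^ (d - 1) := by
      rw [Finset.sum_add_distrib, hfb]
      omega
    exact_mod_cast this
  have h8 := h5.trans h7
  have h9 : (((2 * d - r - 1) * (T + 1) + 2 : ℕ) : ℤ) =
      (2 * (d : ℤ) - 2 - ((r - 1 : ℕ) : ℤ)) * ((T : ℤ) - ((0 : ℕ) : ℤ) + 1) + 2 := by
    obtain ⟨r', rfl⟩ : ∃ r', r = r' + 1 := ⟨r - 1, by omega⟩
    obtain ⟨d', rfl⟩ : ∃ d', d = r' + 1 + 1 + d' := ⟨d - r' - 2, by omega⟩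
    have e1 : 2 * (r' + 1 + 1 + d') - (r' + 1) - 1 = r' + 2 + 2 * d' := by omega
    have e2 : r' + 1 - 1 = r' := by omega
    rw [e1, e2]
    push_cast
    ring
  rw [← h9] at h8
  exact_mod_cast h8

end

end Pool.Agent.Helper70.Rep
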